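import Pool.Agent.H312.Barnes.Box

set_option autoImplicit false

/-!
# The integral over a block
-/

namespace Pool.Agent.H312.Barnes

open Filter Topology MeasureTheory Set

variable {r : ℕ} {w : Fin r → ℝ}

lemma pow_le_geom (r : ℕ) {q : ℝ} (hq : 1 < q) : ∃ C : ℝ, 0 < C ∧ ∀ n : ℕ,
    ((n : ℝ) + 1) ^ r ≤ C * q ^ n := by
  have h1 := tendsto_pow_const_div_const_pow_of_one_lt r hq
  obtain ⟨B, hB⟩ := h1.bddAbove_range
  have hq0 : 0 < q := by linarith
  refine ⟨(|B| + 1) * q, by positivity, fun n => ?_⟩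
  have h2 : ((n + 1 : ℕ) : ℝ) ^ r / q ^ (n + 1) ≤ B := hB ⟨n + 1, rfl⟩
  rw [div_le_iff₀ (by positivity)] at h2
  push_cast at h2
  refine h2.trans ?_
  have h3 : B ≤ |B| + 1 := (le_abs_self B).trans (by linarith)
  calc B * q ^ (n + 1) ≤ (|B| + 1) * q ^ (n + 1) := by gcongr
    _ = _ := by ring

lemma box_meas (b u₀ : ℝ) (z : Fin r → ℝ) :
    MeasurableSet {u : ℝ | u ∈ Icc u₀ (u₀ + 1) ∧ ∀ j, nd (b * Real.exp (-u) * w j) ≤ z j} := by
  have h1 : {u : ℝ | u ∈ Icc u₀ (u₀ + 1) ∧ ∀ j, nd (b * Real.exp (-u) * w j) ≤ z j} =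
      Icc u₀ (u₀ + 1) ∩ ⋂ j, {u : ℝ | nd (b * Real.exp (-u) * w j) ≤ z j} := by
    ext u
    simp
  rw [h1]
  refine measurableSet_Icc.inter (MeasurableSet.iInter fun j => ?_)
  exact measurableSet_le (nd_meas.comp (by fun_prop)) measurable_const

theorem block_le (hr : 0 < r) (hw : ∀ j, 0 < w j) {s θ : ℝ} (hs : 0 ≤ s) (hθ : 1 ≤ θ)
    (h : Dio w s θ) {p₀ : ℝ} (hp₀ : 0 < p₀) {ε : ℝ} (hε : 0 < ε) :
    ∃ C : ℝ, 0 < C ∧ ∀ b u₀ y : ℝ, 0 < b → p₀ ≤ b * Real.exp (-u₀) → 0 < y → y ≤ 1 →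
      ∫⁻ u in Icc u₀ (u₀ + 1),
        ENNReal.ofReal (∏ j, ((max (nd (b * Real.exp (-u) * w j)) y) ^ 2)⁻¹) ≤
        ENNReal.ofReal (C * ((b * Real.exp (-u₀)) ^ (θ - 1) * y ^ (1 - s - θ - ε))) := by
  classical
  obtain ⟨C₀, hC₀, hbox⟩ := box_le hr hw hs hθ h hp₀
  have hq : 1 < (2 : ℝ) ^ ε := Real.one_lt_rpow (by norm_num) hε
  obtain ⟨C₁, hC₁, hgeom⟩ := pow_le_geom r hq
  refine ⟨4 ^ r * C₀ * C₁, by positivity, fun b u₀ y hb hP hy hy1 => ?_⟩
  set P : ℝ := b * Real.exp (-u₀) with hPdef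
  have hP0 : 0 < P := by positivity
  have hy1' : 1 ≤ 1 / y := by rw [le_div_iff₀ hy]; linarith
  obtain ⟨L, hL1, hL2⟩ := exists_nat_pow_near hy1' (one_lt_two)
  set z : (Fin r → Fin (L + 1)) → Fin r → ℝ := fun k j => (1 / 2) ^ (k j : ℕ) with hz
  set S : (Fin r → Fin (L + 1)) → Set ℝ := fun k =>
    {u : ℝ | u ∈ Icc u₀ (u₀ + 1) ∧ ∀ j, nd (b * Real.exp (-u) * w j) ≤ z k j} with hS
  set G : (Fin r → Fin (L + 1)) → ℝ := fun k => ∏ j, (4 * 4 ^ (k j : ℕ)) with hG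
  have hG0 : ∀ k, 0 < G k := fun k => Finset.prod_pos fun j _ => by positivity
  have hzy : ∀ k j, y ≤ z k j := by
    intro k j
    have h1 : (2 : ℝ) ^ (k j : ℕ) ≤ 1 / y := by
      refine le_trans (pow_le_pow_right₀ (by norm_num) ?_) hL1
      have := (k j).isLt
      omega
    show y ≤ (1 / 2) ^ (k j : ℕ)
    rw [one_div_pow, le_div_iff₀ (by positivity)]
    rw [le_div_iff₀ hy] at h1
    linarith
  have hz1 : ∀ k j, z k j ≤ 1 := fun k j => pow_le_one₀ (by norm_num) (by norm_num)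
  have hpt : ∀ u ∈ Icc u₀ (u₀ + 1),
      ENNReal.ofReal (∏ j, ((max (nd (b * Real.exp (-u) * w j)) y) ^ 2)⁻¹) ≤
      ∑ k : Fin r → Fin (L + 1), (S k).indicator (fun _ => ENNReal.ofReal (G k)) u := by
    intro u hu
    have hk : ∀ j : Fin r, ∃ k : Fin (L + 1),
        (2 : ℝ) ^ (k : ℕ) ≤ 1 / max (nd (b * Real.exp (-u) * w j)) y ∧
        1 / max (nd (b * Real.exp (-u) * w j)) y < 2 ^ ((k : ℕ) + 1) := by
      intro j
      set m := max (nd (b * Real.exp (-u) * w j)) y with hm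
      have hm0 : 0 < m := hy.trans_le (le_max_right _ _)
      have hm1 : m ≤ 1 := max_le ((nd_le_half _).trans (by norm_num)) hy1
      have h1 : 1 ≤ 1 / m := by rw [le_div_iff₀ hm0]; linarith
      obtain ⟨k, hk1, hk2⟩ := exists_nat_pow_near h1 (one_lt_two)
      have h2 : 1 / m ≤ 1 / y := one_div_le_one_div_of_le hy (le_max_right _ _)
      have h3 : (2 : ℝ) ^ k < 2 ^ (L + 1) := (hk1.trans h2).trans_lt hL2
      have h4 : k < L + 1 := (pow_lt_pow_iff_right₀ (by norm_num : (1 : ℝ) < 2)).1 h3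
      exact ⟨⟨k, h4⟩, hk1, hk2⟩
    choose k hk1 hk2 using hk
    have hu2 : u ∈ S k := by
      refine ⟨hu, fun j => ?_⟩
      set m := max (nd (b * Real.exp (-u) * w j)) y with hm
      have hm0 : 0 < m := hy.trans_le (le_max_right _ _)
      have h1 := hk1 j
      rw [le_div_iff₀ hm0] at h1
      refine (le_max_left _ y).trans ?_
      show m ≤ (1 / 2) ^ (k j : ℕ)
      rw [one_div_pow, le_div_iff₀ (by positivity)]
      linarith
    refine le_trans ?_ (Finset.single_le_sum (f := fun k : Fin r → Fin (L + 1) =>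
      (S k).indicator (fun _ => ENNReal.ofReal (G k)) u) (fun _ _ => zero_le) (Finset.mem_univ k))
    show _ ≤ (S k).indicator (fun _ => ENNReal.ofReal (G k)) u
    rw [Set.indicator_of_mem hu2]
    apply ENNReal.ofReal_le_ofReal
    refine Finset.prod_le_prod (fun j _ => by positivity) (fun j _ => ?_)
    set m := max (nd (b * Real.exp (-u) * w j)) y with hm
    have hm0 : 0 < m := hy.trans_le (le_max_right _ _)
    have h1 : m⁻¹ ≤ 2 ^ ((k j : ℕ) + 1) := by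
      rw [← one_div]
      exact (hk2 j).le
    calc (m ^ 2)⁻¹ = (m⁻¹) ^ 2 := by rw [inv_pow]
      _ ≤ (2 ^ ((k j : ℕ) + 1)) ^ 2 := by gcongr
      _ = 4 * 4 ^ (k j : ℕ) := by
          rw [← pow_mul, mul_comm, pow_mul]
          norm_num
          rw [pow_succ]
          ring
  have hterm : ∀ k : Fin r → Fin (L + 1),
      ∫⁻ u in Icc u₀ (u₀ + 1), (S k).indicator (fun _ => ENNReal.ofReal (G k)) u ≤
      ENNReal.ofReal (4 ^ r * C₀ * (P ^ (θ - 1) * y ^ (1 - s - θ))) := by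
    intro k
    have h1 : ∫⁻ u in Icc u₀ (u₀ + 1), (S k).indicator (fun _ => ENNReal.ofReal (G k)) u ≤
        ENNReal.ofReal (G k) * volume (S k) := by
      rw [lintegral_indicator_const (box_meas b u₀ (z k))]
      exact mul_le_mul_right (Measure.restrict_apply_le _ _) _
    refine h1.trans ?_
    have h2 := hbox b u₀ y (z k) hb hP hy hy1 (hzy k) (hz1 k)
    calc ENNReal.ofReal (G k) * volume (S k) ≤ ENNReal.ofReal (G k) *
          ENNReal.ofReal (C₀ * (∏ j, (z k j) ^ 2) * (P ^ (θ - 1) * y ^ (1 - s - θ))) := by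
          gcongr
      _ = ENNReal.ofReal (G k * (C₀ * (∏ j, (z k j) ^ 2) * (P ^ (θ - 1) * y ^ (1 - s - θ)))) := by
          rw [ENNReal.ofReal_mul (hG0 k).le]
      _ = _ := by
          congr 1
          have h3 : G k * ∏ j, (z k j) ^ 2 = 4 ^ r := by
            rw [hG, hz]
            simp only
            rw [← Finset.prod_mul_distrib]
            have h4 : ∀ j : Fin r, (4 : ℝ) * 4 ^ (k j : ℕ) * ((1 / 2) ^ (k j : ℕ)) ^ 2 = 4 := by
              intro j
              rw [← pow_mul, mul_comm (k j : ℕ) 2, pow_mul, mul_assoc, ← mul_pow]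
              norm_num
            simp only [h4]
            rw [Finset.prod_const, Finset.card_univ, Fintype.card_fin]
          calc _ = (G k * ∏ j, (z k j) ^ 2) * C₀ * (P ^ (θ - 1) * y ^ (1 - s - θ)) := by ring
            _ = _ := by rw [h3]
  have hcount : ((L : ℝ) + 1) ^ r ≤ C₁ * y ^ (-ε) := by
    refine (hgeom L).trans ?_
    have h1 : ((2 : ℝ) ^ ε) ^ L = ((2 : ℝ) ^ L) ^ ε := by
      rw [← Real.rpow_natCast ((2 : ℝ) ^ ε), ← Real.rpow_natCast (2 : ℝ) L, ← Real.rpow_mul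
        (by norm_num), ← Real.rpow_mul (by norm_num), mul_comm]
    have h2 : ((2 : ℝ) ^ L) ^ ε ≤ (1 / y) ^ ε := Real.rpow_le_rpow (by positivity) hL1 hε.le
    have h3 : (1 / y) ^ ε = y ^ (-ε) := by
      rw [one_div, Real.inv_rpow hy.le, Real.rpow_neg hy.le]
    rw [h1, ← h3]
    gcongr
  calc _ ≤ ∫⁻ u in Icc u₀ (u₀ + 1), ∑ k : Fin r → Fin (L + 1),
        (S k).indicator (fun _ => ENNReal.ofReal (G k)) u :=
        setLIntegral_mono' measurableSet_Icc hpt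
    _ = ∑ k : Fin r → Fin (L + 1),
        ∫⁻ u in Icc u₀ (u₀ + 1), (S k).indicator (fun _ => ENNReal.ofReal (G k)) u := by
        rw [lintegral_finsetSum]
        intro k _
        exact measurable_const.indicator (box_meas b u₀ (z k))
    _ ≤ ∑ _k : Fin r → Fin (L + 1),
        ENNReal.ofReal (4 ^ r * C₀ * (P ^ (θ - 1) * y ^ (1 - s - θ))) :=
        Finset.sum_le_sum fun k _ => hterm k
    _ = ENNReal.ofReal (((L : ℝ) + 1) ^ r * (4 ^ r * C₀ * (P ^ (θ - 1) * y ^ (1 - s - θ)))) := by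
        rw [Finset.sum_const, Finset.card_univ, Fintype.card_fun, Fintype.card_fin,
          Fintype.card_fin, nsmul_eq_mul,
          ENNReal.ofReal_mul (by positivity : (0 : ℝ) ≤ ((L : ℝ) + 1) ^ r)]
        congr 1
        have e1 : ((L : ℝ) + 1) ^ r = (((L + 1) ^ r : ℕ) : ℝ) := by push_cast; rfl
        rw [e1, ENNReal.ofReal_natCast]
    _ ≤ _ := by
        apply ENNReal.ofReal_le_ofReal
        have h1 : y ^ (1 - s - θ - ε) = y ^ (-ε) * y ^ (1 - s - θ) := by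
          rw [← Real.rpow_add hy]; congr 1; ring
        rw [h1]
        calc ((L : ℝ) + 1) ^ r * (4 ^ r * C₀ * (P ^ (θ - 1) * y ^ (1 - s - θ))) ≤
            (C₁ * y ^ (-ε)) * (4 ^ r * C₀ * (P ^ (θ - 1) * y ^ (1 - s - θ))) := by gcongr
          _ = _ := by ring

end Pool.Agent.H312.Barnes
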