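import Mathlib

set_option autoImplicit false

/-!
# Counting near resonances
-/

namespace Pool.Agent.H312.Barnes

open Filter Topology MeasureTheory Set

/-- the distance to the nearest integer -/
noncomputable def nd (x : ℝ) : ℝ := |x - round x|

lemma nd_nonneg (x : ℝ) : 0 ≤ nd x := abs_nonneg _

lemma nd_le_half (x : ℝ) : nd x ≤ 1 / 2 := abs_sub_round x

lemma nd_le (x : ℝ) (n : ℤ) : nd x ≤ |x - n| := round_le x n

lemma nd_sub (x y : ℝ) : nd (x - y) ≤ nd x + nd y := by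
  refine (nd_le (x - y) (round x - round y)).trans ?_
  unfold nd
  push_cast
  have : x - y - ((round x : ℝ) - round y) = (x - round x) - (y - round y) := by ring
  rw [this]
  exact abs_sub _ _

lemma nd_nat_mul (x : ℝ) (m : ℕ) : nd (m * x) ≤ m * nd x := by
  refine (nd_le (m * x) (m * round x)).trans ?_
  unfold nd
  push_cast
  rw [← mul_sub, abs_mul, Nat.abs_cast]

lemma nd_meas : Measurable nd := by
  unfold nd
  have h : (fun x : ℝ => |x - (round x : ℝ)|) = fun x : ℝ => |x - ((⌊x + 1 / 2⌋ : ℤ) : ℝ)| := by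
    funext x
    rw [round_eq]
  rw [h]
  have h1 : Measurable fun x : ℝ => ((⌊x + 1 / 2⌋ : ℤ) : ℝ) := by
    exact (measurable_from_top (f := fun n : ℤ => (n : ℝ))).comp
      ((measurable_id.add_const _).floor)
  have h2 : Measurable fun x : ℝ => x - ((⌊x + 1 / 2⌋ : ℤ) : ℝ) := measurable_id.sub h1
  exact continuous_abs.measurable.comp h2

variable {r : ℕ} {w : Fin r → ℝ}

/-- the Diophantine condition -/
def Dio (w : Fin r → ℝ) (s θ : ℝ) : Prop :=
  ∃ c : ℝ, 0 < c ∧ ∀ ρ y : ℝ, 1 ≤ ρ → 0 < y → y ≤ 1 →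
    c * (y ^ (s + θ) * ρ ^ (-θ)) ≤ ∏ j, (max (nd (ρ * w j)) y) ^ 2

lemma Dio.ext {s θ : ℝ} (hθ : 0 ≤ θ) (h : Dio w s θ) {ρ₀ : ℝ} (hρ₀ : 0 < ρ₀) :
    ∃ c : ℝ, 0 < c ∧ ∀ ρ y : ℝ, ρ₀ ≤ ρ → 0 < y → y ≤ 1 →
      c * (y ^ (s + θ) * ρ ^ (-θ)) ≤ ∏ j, (max (nd (ρ * w j)) y) ^ 2 := by
  obtain ⟨c, hc, hD⟩ := h
  obtain ⟨m, hm⟩ := exists_nat_ge (max 1 (1 / ρ₀))
  have hm1 : (1 : ℝ) ≤ m := (le_max_left _ _).trans hm
  have hm2 : 1 / ρ₀ ≤ m := (le_max_right _ _).trans hm
  have hm0 : (0 : ℝ) < m := by linarith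
  refine ⟨c * (m : ℝ) ^ (-θ) / ((m : ℝ) ^ 2) ^ r, by positivity, fun ρ y hρ hy hy1 => ?_⟩
  have hρ0 : 0 < ρ := hρ₀.trans_le hρ
  have h1 : 1 ≤ m * ρ := by
    rw [div_le_iff₀ hρ₀] at hm2
    nlinarith
  have h2 := hD (m * ρ) y h1 hy hy1
  have h3 : ∏ j, (max (nd (m * ρ * w j)) y) ^ 2 ≤ ∏ j, ((m : ℝ) ^ 2 * (max (nd (ρ * w j)) y) ^ 2) := by
    refine Finset.prod_le_prod (fun j _ => by positivity) (fun j _ => ?_)
    rw [← mul_pow]
    have hmax0 : 0 < max (nd (ρ * w j)) y := hy.trans_le (le_max_right _ _)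
    have hmax1 : 0 < max (nd (m * ρ * w j)) y := hy.trans_le (le_max_right _ _)
    refine pow_le_pow_left₀ hmax1.le (max_le ?_ ?_) 2
    · rw [mul_assoc]
      refine (nd_nat_mul _ _).trans ?_
      gcongr
      exact le_max_left _ _
    · calc y ≤ max (nd (ρ * w j)) y := le_max_right _ _
        _ ≤ m * max (nd (ρ * w j)) y := le_mul_of_one_le_left hmax0.le hm1
  rw [Finset.prod_mul_distrib, Finset.prod_const, Finset.card_univ, Fintype.card_fin] at h3
  have h4 := h2.trans h3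
  rw [Real.mul_rpow hm0.le hρ0.le] at h4
  have h5 : 0 < ((m : ℝ) ^ 2) ^ r := by positivity
  calc c * (m : ℝ) ^ (-θ) / ((m : ℝ) ^ 2) ^ r * (y ^ (s + θ) * ρ ^ (-θ)) =
      (c * (y ^ (s + θ) * ((m : ℝ) ^ (-θ) * ρ ^ (-θ)))) / ((m : ℝ) ^ 2) ^ r := by ring
    _ ≤ _ := by
      rw [div_le_iff₀ h5]
      linarith

/-- a set on the line in which two points are either at distance at most `l` or at distance at least
`R` -/
lemma vol_le {S : Set ℝ} {u₀ l R : ℝ} (hl : 0 ≤ l) (hR : 0 < R) (hS : S ⊆ Icc u₀ (u₀ + 1))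
    (h : ∀ u ∈ S, ∀ v ∈ S, u < v → v - u < R → v - u ≤ l) :
    volume S ≤ ENNReal.ofReal ((1 / R + 1) * l) := by
  set n : ℕ := ⌊1 / R⌋₊ + 1 with hn
  have hn0 : (0 : ℝ) < n := by rw [hn]; push_cast; positivity
  have hnR : 1 / R < n := by rw [hn]; push_cast; exact Nat.lt_floor_add_one _
  have hnR' : 1 / (n : ℝ) < R := by
    rw [div_lt_iff₀ hR] at hnR
    rw [div_lt_iff₀ hn0]
    linarith
  have hn1 : (n : ℝ) ≤ 1 / R + 1 := by
    rw [hn]; push_cast
    have := Nat.floor_le (by positivity : (0 : ℝ) ≤ 1 / R)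
    linarith
  have hcov : S ⊆ ⋃ i ∈ Finset.range n, S ∩ Icc (u₀ + i / n) (u₀ + (i + 1) / n) := by
    intro u hu
    have hu1 := hS hu
    have h1 : 0 ≤ (u - u₀) * n := mul_nonneg (by linarith [hu1.1]) hn0.le
    simp only [mem_iUnion]
    by_cases hlast : u < u₀ + 1
    · refine ⟨⌊(u - u₀) * n⌋₊, ?_, hu, ?_, ?_⟩
      · rw [Finset.mem_range, Nat.floor_lt h1]
        have : u - u₀ < 1 := by linarith
        nlinarith
      · have := Nat.floor_le h1
        rw [← sub_nonneg] at this ⊢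
        have e : u - (u₀ + ((⌊(u - u₀) * n⌋₊ : ℕ) : ℝ) / n) =
            ((u - u₀) * n - (⌊(u - u₀) * n⌋₊ : ℕ)) / n := by field_simp; ring
        rw [e]
        positivity
      · have := (Nat.lt_floor_add_one ((u - u₀) * n)).le
        rw [← sub_nonneg] at this ⊢
        have e : u₀ + (((⌊(u - u₀) * n⌋₊ : ℕ) : ℝ) + 1) / n - u =
            ((⌊(u - u₀) * n⌋₊ : ℕ) + 1 - (u - u₀) * n) / n := by field_simp; ring
        rw [e]
        positivity
    · have hu2 : u = u₀ + 1 := le_antisymm hu1.2 (not_lt.1 hlast)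
      refine ⟨n - 1, ?_, hu, ?_, ?_⟩
      · rw [Finset.mem_range]; omega
      · rw [hu2, Nat.cast_sub (by omega)]
        have : ((n : ℝ) - (1 : ℕ)) / n ≤ 1 := by
          rw [div_le_one hn0]; push_cast; linarith
        linarith
      · rw [hu2, Nat.cast_sub (by omega)]
        have : ((n : ℝ) - (1 : ℕ) + 1) / n = 1 := by
          push_cast
          field_simp
          ring
        linarith
  have hpiece : ∀ i ∈ Finset.range n, volume (S ∩ Icc (u₀ + i / n) (u₀ + (i + 1) / n)) ≤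
      ENNReal.ofReal l := by
    intro i _
    refine (Real.volume_le_diam _).trans ?_
    refine Metric.ediam_le ?_
    intro u hu v hv
    have key : ∀ u ∈ S ∩ Icc (u₀ + (i : ℝ) / n) (u₀ + (i + 1) / n),
        ∀ v ∈ S ∩ Icc (u₀ + (i : ℝ) / n) (u₀ + (i + 1) / n), u < v → v - u ≤ l := by
      intro u hu v hv huv
      refine h u hu.1 v hv.1 huv ?_
      have h1 := hu.2.1
      have h2 := hv.2.2
      have h3 : (u₀ + ((i : ℝ) + 1) / n) - (u₀ + (i : ℝ) / n) = 1 / n := by ring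
      linarith
    rw [edist_dist]
    apply ENNReal.ofReal_le_ofReal
    rw [Real.dist_eq]
    rcases lt_trichotomy u v with h1 | h1 | h1
    · rw [abs_of_nonpos (by linarith)]
      have := key u hu v hv h1
      linarith
    · rw [h1, sub_self, abs_zero]; exact hl
    · rw [abs_of_nonneg (by linarith)]
      exact key v hv u hu h1
  calc volume S ≤ volume (⋃ i ∈ Finset.range n, S ∩ Icc (u₀ + i / n) (u₀ + (i + 1) / n)) :=
        measure_mono hcov
    _ ≤ ∑ i ∈ Finset.range n, volume (S ∩ Icc (u₀ + i / n) (u₀ + (i + 1) / n)) :=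
        measure_biUnion_finset_le _ _
    _ ≤ ∑ i ∈ Finset.range n, ENNReal.ofReal l := Finset.sum_le_sum hpiece
    _ = ENNReal.ofReal (n * l) := by
        rw [Finset.sum_const, Finset.card_range, nsmul_eq_mul, ENNReal.ofReal_mul hn0.le,
          ENNReal.ofReal_natCast]
    _ ≤ _ := by
        apply ENNReal.ofReal_le_ofReal
        gcongr

end Pool.Agent.H312.Barnes
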