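import Pool.Agent.H312.Barnes.Low

set_option autoImplicit false

/-!
# Dirichlet's theorem for weights which span a rational vector space of dimension `d`
-/

namespace Pool.Agent.H312.Barnes

open Finset

/-- Dirichlet's theorem on simultaneous approximation -/
lemma dirichlet {ι : Type*} [Fintype ι] (α : ι → ℝ) (Q : ℕ) (hQ : 1 ≤ Q) :
    ∃ k : ℕ, 1 ≤ k ∧ k ≤ Q ^ (Fintype.card ι) ∧
      ∀ i, ∃ N : ℤ, |(k : ℝ) * α i - N| ≤ 1 / Q := by
  classical
  have hQ0 : (0 : ℝ) < Q := by exact_mod_cast hQ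
  have hnn : ∀ (k : ℕ) (i : ι), 0 ≤ (Q : ℝ) * Int.fract ((k : ℝ) * α i) := fun k i =>
    mul_nonneg hQ0.le (Int.fract_nonneg _)
  have hlt : ∀ (k : ℕ) (i : ι), ⌊(Q : ℝ) * Int.fract ((k : ℝ) * α i)⌋₊ < Q := by
    intro k i
    rw [Nat.floor_lt (hnn k i)]
    have := Int.fract_lt_one ((k : ℝ) * α i)
    nlinarith
  have key : ∀ x y : ℕ, x < y → (∀ i, ⌊(Q : ℝ) * Int.fract ((x : ℝ) * α i)⌋₊ =
      ⌊(Q : ℝ) * Int.fract ((y : ℝ) * α i)⌋₊) →
      ∀ i, ∃ N : ℤ, |((y - x : ℕ) : ℝ) * α i - N| ≤ 1 / Q := by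
    intro x y hxy h i
    refine ⟨⌊(y : ℝ) * α i⌋ - ⌊(x : ℝ) * α i⌋, ?_⟩
    have h1 := h i
    have h2 := Nat.floor_le (hnn x i)
    have h3 := Nat.lt_floor_add_one ((Q : ℝ) * Int.fract ((x : ℝ) * α i))
    have h4 := Nat.floor_le (hnn y i)
    have h5 := Nat.lt_floor_add_one ((Q : ℝ) * Int.fract ((y : ℝ) * α i))
    rw [h1] at h2 h3
    have e1 : ((y - x : ℕ) : ℝ) * α i - ((⌊(y : ℝ) * α i⌋ - ⌊(x : ℝ) * α i⌋ : ℤ) : ℝ) =
        Int.fract ((y : ℝ) * α i) - Int.fract ((x : ℝ) * α i) := by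
      rw [Nat.cast_sub hxy.le]
      push_cast
      rw [← Int.self_sub_floor, ← Int.self_sub_floor]
      ring
    rw [e1, abs_le]
    constructor
    · rw [neg_le, div_eq_inv_mul, mul_one, ← one_div, le_div_iff₀ hQ0]
      nlinarith
    · rw [le_div_iff₀ hQ0]
      nlinarith
  let f : Fin (Q ^ (Fintype.card ι) + 1) → (ι → Fin Q) := fun k i =>
    ⟨⌊(Q : ℝ) * Int.fract (((k : ℕ) : ℝ) * α i)⌋₊, hlt k i⟩
  have hcard : Fintype.card (ι → Fin Q) < Fintype.card (Fin (Q ^ (Fintype.card ι) + 1)) := by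
    simp
  obtain ⟨x, y, hxy, hf⟩ := Fintype.exists_ne_map_eq_of_card_lt f hcard
  have hfe : ∀ i, ⌊(Q : ℝ) * Int.fract (((x : ℕ) : ℝ) * α i)⌋₊ =
      ⌊(Q : ℝ) * Int.fract (((y : ℕ) : ℝ) * α i)⌋₊ := fun i =>
    congrArg Fin.val (congrFun hf i)
  have hx := x.2
  have hy := y.2
  rcases Nat.lt_or_ge (x : ℕ) (y : ℕ) with h | h
  · exact ⟨(y : ℕ) - x, by omega, by omega, key x y h hfe⟩
  · have h' : (y : ℕ) < x := lt_of_le_of_ne h fun e => hxy (Fin.ext e.symm)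
    exact ⟨(x : ℕ) - y, by omega, by omega, key y x h' fun i => (hfe i).symm⟩

lemma approx_all {ι : Type*} [Fintype ι] (α : ι → ℝ) {κ : ℝ} (hκ0 : 0 ≤ κ)
    (hκ : κ * Fintype.card ι ≤ 1) (X : ℝ) :
    ∃ k : ℕ, X ≤ k ∧ 1 ≤ k ∧ ∀ i, ∃ N : ℤ, |(k : ℝ) * α i - N| ≤ (k : ℝ) ^ (-κ) := by
  set n : ℕ := max 1 ⌈X⌉₊ with hn
  have hn1 : 1 ≤ n := le_max_left _ _
  have hnX : X ≤ n := (Nat.le_ceil X).trans (Nat.cast_le.2 (le_max_right _ _))
  have hn1' : (1 : ℝ) ≤ n := by exact_mod_cast hn1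
  have hn0 : (0 : ℝ) < n := by linarith
  set Q : ℕ := max 1 ⌈(n : ℝ) * ((n : ℝ) * n) ^ κ⌉₊ with hQ
  have hQ1 : 1 ≤ Q := le_max_left _ _
  have hQ1' : (1 : ℝ) ≤ Q := by exact_mod_cast hQ1
  have hQ0 : (0 : ℝ) < Q := by linarith
  have hQn : (n : ℝ) * ((n : ℝ) * n) ^ κ ≤ Q :=
    (Nat.le_ceil _).trans (Nat.cast_le.2 (le_max_right _ _))
  obtain ⟨k, hk1, hkQ, hk⟩ := dirichlet α Q hQ1
  have hk1' : (1 : ℝ) ≤ k := by exact_mod_cast hk1
  have hk0 : (0 : ℝ) < k := by linarith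
  rcases le_or_gt n k with h | h
  · refine ⟨k, hnX.trans (by exact_mod_cast h), hk1, fun i => ?_⟩
    obtain ⟨N, hN⟩ := hk i
    refine ⟨N, hN.trans ?_⟩
    have h1 : (k : ℝ) ^ κ ≤ Q := by
      calc (k : ℝ) ^ κ ≤ ((Q : ℝ) ^ Fintype.card ι) ^ κ := by
            apply Real.rpow_le_rpow hk0.le _ hκ0
            exact_mod_cast hkQ
        _ = (Q : ℝ) ^ ((Fintype.card ι : ℝ) * κ) := by
            rw [← Real.rpow_natCast, ← Real.rpow_mul hQ0.le]
        _ ≤ (Q : ℝ) ^ (1 : ℝ) := Real.rpow_le_rpow_of_exponent_le hQ1' (by linarith)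
        _ = Q := Real.rpow_one _
    rw [Real.rpow_neg hk0.le, one_div]
    exact inv_anti₀ (Real.rpow_pos_of_pos hk0 _) h1
  · refine ⟨n * k, ?_, Nat.mul_pos hn1 hk1, fun i => ?_⟩
    · push_cast
      nlinarith
    · obtain ⟨N, hN⟩ := hk i
      refine ⟨n * N, ?_⟩
      push_cast
      have e1 : (n : ℝ) * k * α i - n * N = n * (k * α i - N) := by ring
      rw [e1, abs_mul, abs_of_pos hn0]
      have h2 : (k : ℝ) ≤ n := by exact_mod_cast h.le
      have h3 : (n : ℝ) * ((n : ℝ) * k) ^ κ ≤ Q := by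
        refine le_trans ?_ hQn
        gcongr
      have hnk : 0 < (n : ℝ) * k := by positivity
      have h4 : 0 < ((n : ℝ) * k) ^ κ := Real.rpow_pos_of_pos hnk _
      rw [Real.rpow_neg hnk.le, ← one_div, le_div_iff₀ h4]
      calc (n : ℝ) * |k * α i - N| * ((n : ℝ) * k) ^ κ
          ≤ (n : ℝ) * (1 / Q) * ((n : ℝ) * k) ^ κ := by gcongr
        _ = ((n : ℝ) * ((n : ℝ) * k) ^ κ) / Q := by ring
        _ ≤ 1 := by rw [div_le_one hQ0]; exact h3

/-- Every weight vector has Dirichlet's exponent of approximation. -/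
theorem simApprox_dim {r : ℕ} (w : Fin r → ℝ) (hw : ∀ j, 0 < w j) {κ : ℝ} (hκ0 : 0 ≤ κ)
    (hκ : κ * ((Module.finrank ℚ (Submodule.span ℚ (Set.range w)) : ℝ) - 1) ≤ 1) :
    SimApprox w Finset.univ κ := by
  classical
  rcases Nat.eq_zero_or_pos r with hr | hr
  · subst hr
    exact ⟨0, fun X => ⟨X, le_rfl, fun j => j.elim0⟩⟩
  set V : Submodule ℚ ℝ := Submodule.span ℚ (Set.range w) with hV
  have : FiniteDimensional ℚ V := FiniteDimensional.span_of_finite ℚ (Set.finite_range w)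
  set d : ℕ := Module.finrank ℚ V with hd
  have hmem : ∀ j, w j ∈ V := fun j => Submodule.subset_span ⟨j, rfl⟩
  let j0 : Fin r := ⟨0, hr⟩
  have hd0 : 0 < d := by
    have : Nontrivial V := ⟨⟨⟨w j0, hmem j0⟩, 0, fun h => (hw j0).ne' (congrArg Subtype.val h)⟩⟩
    exact Module.finrank_pos
  let b : Module.Basis (Fin d) ℚ V := Module.finBasis ℚ V
  let i0 : Fin d := ⟨0, hd0⟩
  let v : Fin d → ℝ := fun i => (b i : ℝ)
  have hv0 : v i0 ≠ 0 := by
    intro h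
    exact b.ne_zero i0 (Subtype.ext h)
  have habs : 0 < |v i0| := abs_pos.2 hv0
  let q : Fin r → Fin d → ℚ := fun j i => b.repr ⟨w j, hmem j⟩ i
  have hwq : ∀ j, w j = ∑ i, (q j i : ℝ) * v i := by
    intro j
    have h := congrArg Subtype.val (b.sum_repr ⟨w j, hmem j⟩)
    refine h.symm.trans ?_
    simp only [Submodule.coe_sum, Submodule.coe_smul]
    refine Finset.sum_congr rfl fun i _ => ?_
    rw [Rat.smul_def]
  let M : ℕ := ∏ j, ∏ i, (q j i).den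
  have hM0 : 0 < M := Finset.prod_pos fun j _ => Finset.prod_pos fun i _ => (q j i).den_pos
  have hM0' : (0 : ℝ) < M := by exact_mod_cast hM0
  have hint : ∀ j i, ∃ n : ℤ, (M : ℝ) * (q j i : ℝ) = n := by
    intro j i
    have h1 : (q j i).den ∣ M :=
      (Finset.dvd_prod_of_mem (fun i => (q j i).den) (Finset.mem_univ i)).trans
        (Finset.dvd_prod_of_mem (fun j => ∏ i, (q j i).den) (Finset.mem_univ j))
    obtain ⟨e, he⟩ := h1
    refine ⟨e * (q j i).num, ?_⟩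
    have h2 : ((q j i : ℚ) : ℝ) = ((q j i).num : ℝ) / ((q j i).den : ℝ) := by
      rw [Rat.cast_def]
    have h3 : ((q j i).den : ℝ) ≠ 0 := by exact_mod_cast (q j i).den_ne_zero
    rw [h2, he]
    push_cast
    field_simp
  choose nn hnn using hint
  let β : ℝ := |v i0| / M
  have hβ : 0 < β := by positivity
  refine ⟨(∑ j, ∑ i, |(nn j i : ℝ)|) * β ^ (-κ), fun X => ?_⟩
  let α : {i : Fin d // i ≠ i0} → ℝ := fun i => v i / |v i0|
  have hcard : (Fintype.card {i : Fin d // i ≠ i0} : ℝ) = (d : ℝ) - 1 := by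
    have : Fintype.card {i : Fin d // i ≠ i0} = d - 1 := by
      simp [Fintype.card_subtype_compl]
    rw [this, Nat.cast_sub hd0]
    simp
  obtain ⟨k, hkX, hk1, hk⟩ := approx_all α hκ0 (by rw [hcard]; exact hκ) (X * β)
  have hk0 : (0 : ℝ) < k := by exact_mod_cast hk1
  have hkκ : 0 < (k : ℝ) ^ (-κ) := Real.rpow_pos_of_pos hk0 _
  refine ⟨(k : ℝ) / β, by rw [le_div_iff₀ hβ]; exact hkX, fun j _ => ?_⟩
  have hDk : ((k : ℝ) / β) ^ (-κ) = (k : ℝ) ^ (-κ) * (β ^ (-κ))⁻¹ := by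
    rw [Real.div_rpow hk0.le hβ.le, div_eq_mul_inv]
  -- integers near `k v_i / |v_0|`
  have hint2 : ∀ i : Fin d, ∃ N : ℤ, |(k : ℝ) * (v i / |v i0|) - N| ≤ (k : ℝ) ^ (-κ) := by
    intro i
    by_cases hi : i = i0
    · subst hi
      rcases lt_or_gt_of_ne hv0 with h | h
      · refine ⟨-k, ?_⟩
        rw [abs_of_neg h]
        push_cast
        have : (k : ℝ) * (v i0 / -v i0) - -(k : ℝ) = 0 := by
          have : v i0 ≠ 0 := hv0
          field_simp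
          ring
        rw [this, abs_zero]
        exact hkκ.le
      · refine ⟨k, ?_⟩
        rw [abs_of_pos h]
        push_cast
        have : (k : ℝ) * (v i0 / v i0) - (k : ℝ) = 0 := by
          have : v i0 ≠ 0 := hv0
          field_simp
          ring
        rw [this, abs_zero]
        exact hkκ.le
    · exact hk ⟨i, hi⟩
  choose N hN using hint2
  refine ⟨∑ i, nn j i * N i, ?_⟩
  have e1 : (k : ℝ) / β * w j - ((∑ i, nn j i * N i : ℤ) : ℝ) =
      ∑ i, (nn j i : ℝ) * ((k : ℝ) * (v i / |v i0|) - N i) := by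
    rw [hwq j, Finset.mul_sum]
    push_cast
    rw [← Finset.sum_sub_distrib]
    refine Finset.sum_congr rfl fun i _ => ?_
    rw [← hnn j i]
    have : |v i0| ≠ 0 := habs.ne'
    have : (M : ℝ) ≠ 0 := hM0'.ne'
    simp only [β]
    field_simp
  rw [e1]
  calc |∑ i, (nn j i : ℝ) * ((k : ℝ) * (v i / |v i0|) - N i)|
      ≤ ∑ i, |(nn j i : ℝ)| * (k : ℝ) ^ (-κ) := by
        refine (Finset.abs_sum_le_sum_abs _ _).trans (Finset.sum_le_sum fun i _ => ?_)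
        rw [abs_mul]
        exact mul_le_mul_of_nonneg_left (hN i) (abs_nonneg _)
    _ = (∑ i, |(nn j i : ℝ)|) * (k : ℝ) ^ (-κ) := by rw [Finset.sum_mul]
    _ ≤ (∑ j, ∑ i, |(nn j i : ℝ)|) * (k : ℝ) ^ (-κ) := by
        refine mul_le_mul_of_nonneg_right ?_ hkκ.le
        exact Finset.single_le_sum (f := fun j => ∑ i, |(nn j i : ℝ)|)
          (fun j _ => Finset.sum_nonneg fun i _ => abs_nonneg _) (Finset.mem_univ j)
    _ = _ := by
        rw [hDk]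
        have : β ^ (-κ) ≠ 0 := (Real.rpow_pos_of_pos hβ _).ne'
        field_simp

end Pool.Agent.H312.Barnes
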