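import Pool.Agent.H312.Barnes.Kap

set_option autoImplicit false

/-!
# The exponent of the mean square
-/

namespace Pool.Agent.H312.Barnes

open Filter Topology

variable {r : ℕ} {w : Fin r → ℝ}

lemma Dio.mono {s θ θ' : ℝ} (h : Dio w s θ) (hθ : θ ≤ θ') : Dio w s θ' := by
  obtain ⟨c, hc, hD⟩ := h
  refine ⟨c, hc, fun ρ y hρ hy hy1 => ?_⟩
  refine le_trans ?_ (hD ρ y hρ hy hy1)
  have hρ0 : 0 < ρ := by linarith
  have h1 : y ^ (s + θ') ≤ y ^ (s + θ) := Real.rpow_le_rpow_of_exponent_ge hy hy1 (by linarith)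
  have h2 : ρ ^ (-θ') ≤ ρ ^ (-θ) := Real.rpow_le_rpow_of_exponent_le hρ (by linarith)
  gcongr

lemma finrank_pos (hr : 0 < r) (hw : ∀ j, 0 < w j) :
    1 ≤ Module.finrank ℚ (Submodule.span ℚ (Set.range w)) := by
  have : Module.Finite ℚ (Submodule.span ℚ (Set.range w)) :=
    Module.Finite.span_of_finite ℚ (Set.finite_range w)
  rw [Nat.one_le_iff_ne_zero]
  intro h
  rw [Submodule.finrank_eq_zero] at h
  have h1 : w ⟨0, hr⟩ ∈ Submodule.span ℚ (Set.range w) :=
    Submodule.subset_span (Set.mem_range_self _)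
  rw [h, Submodule.mem_bot] at h1
  exact (hw ⟨0, hr⟩).ne' h1

/-- The Diophantine condition in terms of the exponents of simultaneous approximation -/
theorem dio_iff (hr : 0 < r) (hw : ∀ j, 0 < w j) {σ η : ℝ} (hη : 0 ≤ η)
    (hσ : ((Module.finrank ℚ (Submodule.span ℚ (Set.range w)) : ℝ) - 1) * (r - σ - 1) ≤ 1) :
    (∀ ε : ℝ, 0 < ε → Dio w (2 * σ) (1 + 2 * η + ε)) ↔
      ∀ κ : ℝ, 0 < κ → SimApprox w Finset.univ κ → 2 * κ * (r - σ) ≤ (1 + κ) * (1 + 2 * η) := by
  set d : ℕ := Module.finrank ℚ (Submodule.span ℚ (Set.range w)) with hd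
  have hd1 : 1 ≤ d := finrank_pos hr hw
  constructor
  · intro h κ hκ hA
    refine le_of_forall_pos_le_add fun ε hε => ?_
    have hκ1 : 0 < 1 + κ := by linarith
    have h1 := approx_dio hκ hA (h (ε / (1 + κ)) (by positivity))
    refine h1.trans (le_of_eq ?_)
    field_simp
  · intro h ε hε
    rcases le_or_gt (r - σ) 0 with hneg | hpos
    · exact dio_trivial w (by linarith) (by linarith)
    by_cases hbdd : BddAbove {κ : ℝ | 0 < κ ∧ SimApprox w Finset.univ κ}
    · set A : Set ℝ := {κ : ℝ | 0 < κ ∧ SimApprox w Finset.univ κ} with hA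
      have hd2 : 2 ≤ d := by
        by_contra hcon
        have hd' : d = 1 := by omega
        obtain ⟨B, hB⟩ := hbdd
        have h1 : |B| + 1 ∈ A := by
          refine ⟨by positivity, simApprox_dim w hw (by positivity) ?_⟩
          rw [← hd, hd']
          norm_num
        have h2 := hB h1
        have h3 := le_abs_self B
        linarith
      have hd2' : (2 : ℝ) ≤ d := by exact_mod_cast hd2
      have hdp : (0 : ℝ) < d - 1 := by linarith
      have hmem : 1 / ((d : ℝ) - 1) ∈ A := by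
        refine ⟨by positivity, simApprox_dim w hw (by positivity) ?_⟩
        rw [← hd, one_div, inv_mul_cancel₀ hdp.ne']
      set ω : ℝ := sSup A with hω
      have hω1 : 1 / ((d : ℝ) - 1) ≤ ω := le_csSup hbdd hmem
      set δ : ℝ := ε / (4 * (r - σ)) with hδ
      have hδ0 : 0 < δ := by positivity
      obtain ⟨κ', hκ'A, hκ'⟩ := exists_lt_of_lt_csSup ⟨_, hmem⟩ (show ω - δ < sSup A by linarith)
      have hκ'0 : 0 < κ' := hκ'A.1
      set κ : ℝ := κ' + 2 * δ with hκ
      have hκω : ω < κ := by linarith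
      have hκ0 : 0 < κ := by linarith
      have hnot : ¬ SimApprox w Finset.univ κ := by
        intro hcon
        have := le_csSup hbdd (show κ ∈ A from ⟨hκ0, hcon⟩)
        linarith
      have h1 := h κ' hκ'0 hκ'A.2
      have h2 : r - σ ≤ 1 + κ := by
        have h3 : r - σ - 1 ≤ 1 / ((d : ℝ) - 1) := by
          rw [le_div_iff₀ hdp]
          linarith
        linarith
      refine (dio_of_napprox hr hκ0 hnot hpos.le h2).mono ?_
      have e1 : 0 < 1 + κ := by linarith
      have e2 : 0 < 1 + κ' := by linarith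
      have h4 : 2 * (r - σ) * κ' / (1 + κ') ≤ 1 + 2 * η := by
        rw [div_le_iff₀ e2]
        linarith
      have h5 : 2 * (r - σ) * κ / (1 + κ) - 2 * (r - σ) * κ' / (1 + κ') ≤
          2 * (r - σ) * (2 * δ) := by
        have e3 : 2 * (r - σ) * κ / (1 + κ) - 2 * (r - σ) * κ' / (1 + κ') =
            2 * (r - σ) * (2 * δ) / ((1 + κ) * (1 + κ')) := by
          rw [hκ]
          field_simp
          ring
        rw [e3]
        apply div_le_self (by positivity)
        nlinarith
      have h6 : 2 * (r - σ) * (2 * δ) = ε := by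
        rw [hδ]
        field_simp
        ring
      linarith
    · -- all exponents occur
      have hbig : 2 * (r - σ) ≤ 1 + 2 * η := by
        refine le_of_forall_pos_le_add fun x hx => ?_
        rw [not_bddAbove_iff] at hbdd
        obtain ⟨κ, ⟨hκ0, hκA⟩, hκ⟩ := hbdd ((1 + 2 * η) / x)
        have h1 := h κ hκ0 hκA
        rw [div_lt_iff₀ hx] at hκ
        have h2 : κ * (2 * (r - σ)) ≤ κ * (1 + 2 * η + x) := by nlinarith
        exact le_of_mul_le_mul_left h2 hκ0
      exact dio_trivial w (by linarith) (by linarith)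

/-- approximation of `(1, α)` -/
lemma simApprox_two {α κ : ℝ} (hα : 0 < α) (hirr : Irrational α) (hκ : 0 < κ) :
    SimApprox ![1, α] Finset.univ κ ↔ LiouvilleWith (κ + 1) α := by
  constructor
  · rintro ⟨C0, h⟩
    set C : ℝ := max C0 1 with hC
    have hC1 : 1 ≤ C := le_max_right _ _
    have hC0' : C0 ≤ C := le_max_left _ _
    have hCp : 0 < C := by linarith
    refine ⟨(1 + α) * C * 2 ^ κ + 1, ?_⟩
    rw [Filter.frequently_atTop]
    intro n₀
    have hev : ∀ᶠ D : ℝ in atTop, C * D ^ (-κ) ≤ 1 := by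
      have t1 : Tendsto (fun D : ℝ => C * D ^ (-κ)) atTop (𝓝 (C * 0)) :=
        (tendsto_rpow_neg_atTop hκ).const_mul C
      rw [mul_zero] at t1
      exact t1.eventually_le_const (zero_lt_one' ℝ)
    obtain ⟨X, hX⟩ := eventually_atTop.1 hev
    obtain ⟨D, hD, hDj⟩ := h (max (max X 3) (n₀ + 1))
    have hDX : X ≤ D := (le_max_left _ _).trans ((le_max_left _ _).trans hD)
    have hD3 : 3 ≤ D := (le_max_right _ _).trans ((le_max_left _ _).trans hD)
    have hDn : (n₀ : ℝ) + 1 ≤ D := (le_max_right _ _).trans hD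
    have hD0 : 0 < D := by linarith
    have hs := hX D hDX
    obtain ⟨N, hN⟩ := hDj 0 (Finset.mem_univ _)
    obtain ⟨M, hM⟩ := hDj 1 (Finset.mem_univ _)
    simp only [Matrix.cons_val_zero, mul_one, Matrix.cons_val_one, Matrix.cons_val_fin_one] at hN hM
    have hpw : 0 < D ^ (-κ) := by positivity
    have hN' : |D - N| ≤ C * D ^ (-κ) := hN.trans (by gcongr)
    have hM' : |D * α - M| ≤ C * D ^ (-κ) := hM.trans (by gcongr)
    have hN1 := abs_le.1 (hN'.trans hs)
    have hNpos : (2 : ℝ) ≤ N := by linarith [hN1.2]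
    have hNpos' : 0 ≤ N := by
      have : (0 : ℝ) ≤ N := by linarith
      exact_mod_cast this
    obtain ⟨n, rfl⟩ := Int.eq_ofNat_of_zero_le hNpos'
    simp only [Int.cast_natCast] at hN' hN1 hNpos
    have hn0 : (0 : ℝ) < n := by linarith
    refine ⟨n, ?_, M, ?_, ?_⟩
    · have : (n₀ : ℝ) ≤ n := by linarith [hN1.2]
      exact_mod_cast this
    · intro hcon
      refine hirr ⟨(M : ℚ) / n, ?_⟩
      push_cast
      exact hcon.symm
    · have h1 : |n * α - M| ≤ (1 + α) * (C * D ^ (-κ)) := by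
        have e1 : (n : ℝ) * α - M = (D * α - M) - (D - n) * α := by ring
        rw [e1]
        refine (abs_sub _ _).trans ?_
        rw [abs_mul, abs_of_pos hα]
        nlinarith
      have h2 : D ^ (-κ) ≤ 2 ^ κ * (n : ℝ) ^ (-κ) := by
        have h3 : (n : ℝ) / 2 ≤ D := by linarith [hN1.1]
        have h4 : D ^ (-κ) ≤ ((n : ℝ) / 2) ^ (-κ) :=
          Real.rpow_le_rpow_of_nonpos (by positivity) h3 (by linarith)
        refine h4.trans (le_of_eq ?_)
        rw [Real.div_rpow hn0.le (by norm_num), Real.rpow_neg (by norm_num : (0 : ℝ) ≤ 2),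
          div_inv_eq_mul, mul_comm]
      have h3 : |α - M / n| = |n * α - M| / n := by
        have e1 : α - M / n = (n * α - M) / n := by field_simp
        rw [e1, abs_div, abs_of_pos hn0]
      have h4 : (n : ℝ) ^ (-κ) / n = 1 / (n : ℝ) ^ (κ + 1) := by
        rw [Real.rpow_neg hn0.le, Real.rpow_add_one hn0.ne']
        field_simp
      have h5 : 0 < 1 / (n : ℝ) ^ (κ + 1) := by positivity
      rw [h3]
      calc |n * α - M| / n ≤ ((1 + α) * (C * (2 ^ κ * (n : ℝ) ^ (-κ)))) / n := by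
            gcongr
            exact h1.trans (by gcongr)
        _ = ((1 + α) * C * 2 ^ κ) * ((n : ℝ) ^ (-κ) / n) := by ring
        _ = ((1 + α) * C * 2 ^ κ) * (1 / (n : ℝ) ^ (κ + 1)) := by rw [h4]
        _ < ((1 + α) * C * 2 ^ κ + 1) * (1 / (n : ℝ) ^ (κ + 1)) := by
            apply mul_lt_mul_of_pos_right (by linarith) h5
        _ = _ := by ring
  · rintro ⟨C, hC⟩
    refine ⟨max C 0, fun X => ?_⟩
    obtain ⟨n, ⟨m, -, hm⟩, hn⟩ :=
      (hC.and_eventually (eventually_ge_atTop (max 1 ⌈X⌉₊))).exists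
    have hn1 : 1 ≤ n := (le_max_left _ _).trans hn
    have hnX : X ≤ n := (Nat.le_ceil X).trans (Nat.cast_le.2 ((le_max_right _ _).trans hn))
    have hn0 : (0 : ℝ) < n := by exact_mod_cast hn1
    refine ⟨n, hnX, fun j _ => ?_⟩
    have hpow : (n : ℝ) ^ (-κ) = n / (n : ℝ) ^ (κ + 1) := by
      rw [Real.rpow_neg hn0.le, Real.rpow_add_one hn0.ne']
      field_simp
    have hpos : 0 < (n : ℝ) / (n : ℝ) ^ (κ + 1) := by positivity
    fin_cases j
    · refine ⟨n, ?_⟩
      simp only [Fin.zero_eta, Matrix.cons_val_zero, mul_one, Int.cast_natCast, sub_self, abs_zero]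
      rw [hpow]
      positivity
    · refine ⟨m, ?_⟩
      simp only [Fin.mk_one, Matrix.cons_val_one, Matrix.cons_val_fin_one]
      have e1 : (n : ℝ) * α - m = n * (α - m / n) := by field_simp
      rw [e1, abs_mul, abs_of_pos hn0, hpow]
      calc (n : ℝ) * |α - m / n| ≤ n * (C / (n : ℝ) ^ (κ + 1)) := by gcongr
        _ = C * (n / (n : ℝ) ^ (κ + 1)) := by ring
        _ ≤ max C 0 * (n / (n : ℝ) ^ (κ + 1)) := by
            gcongr
            exact le_max_left _ _

end Pool.Agent.H312.Barnes
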