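import Pool.Graph.R_seed8.Y616.BM.Main
import Pool.Agent.H312.Barnes.Blk

set_option autoImplicit false

/-!
# The square integral of the kernel on a rotated ray
-/

namespace Pool.Agent.H312.Barnes

open Finset Filter Topology MeasureTheory Complex Set
open Pool.Agent.H131R5.BZ Pool.Agent.Y930.Bz Pool.Agent.Y616.BM

/-- the constant in the comparison of a factor -/
noncomputable def cf (w : ℝ) : ℝ := min (w ^ 2 * Real.exp (-(2 * w))) (16 * Real.exp (-w))

lemma cf_pos {w : ℝ} (hw : 0 < w) : 0 < cf w := by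
  unfold cf
  exact lt_min (by positivity) (by positivity)

lemma fac_lower {w x y ρ : ℝ} (hw : 0 < w) (hx : 0 < x) (hy : 0 < y) (hyx : y ≤ x) (hy1 : y ≤ 1) :
    cf w * (max (nd (ρ * w)) y) ^ 2 ≤
      ‖1 - cexp (-(w : ℂ) * ((x : ℂ) + ((2 * Real.pi * ρ : ℝ) : ℂ) * I))‖ ^ 2 := by
  have hp := Real.pi_pos
  rw [fac_sq]
  have h1 : 8 * (nd (ρ * w)) ^ 2 ≤ 1 - Real.cos (w * (2 * Real.pi * ρ)) := by
    have e1 : Real.cos (w * (2 * Real.pi * ρ)) =
        Real.cos (2 * Real.pi * (ρ * w - round (ρ * w))) := by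
      rw [← Real.cos_sub_int_mul_two_pi (w * (2 * Real.pi * ρ)) (round (ρ * w))]
      congr 1
      ring
    have e2 : |2 * Real.pi * (ρ * w - round (ρ * w))| ≤ Real.pi := by
      rw [abs_mul, abs_of_pos (by positivity)]
      have := abs_sub_round (ρ * w)
      nlinarith
    have e3 := Real.cos_le_one_sub_mul_cos_sq e2
    rw [e1]
    have e4 : (nd (ρ * w)) ^ 2 = (ρ * w - round (ρ * w)) ^ 2 := by
      unfold nd
      rw [sq_abs]
    have e5 : 2 / Real.pi ^ 2 * (2 * Real.pi * (ρ * w - round (ρ * w))) ^ 2 =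
        8 * (ρ * w - round (ρ * w)) ^ 2 := by
      field_simp
      ring
    rw [e5] at e3
    rw [e4]
    linarith
  have hcos : 0 ≤ 1 - Real.cos (w * (2 * Real.pi * ρ)) := by
    linarith [Real.cos_le_one (w * (2 * Real.pi * ρ))]
  have hbase : ∀ t : ℝ, 0 ≤ t → t * Real.exp (-t) ≤ 1 - Real.exp (-t) := by
    intro t ht
    have h2 := Real.add_one_le_exp t
    have h3 : Real.exp t * Real.exp (-t) = 1 := by rw [← Real.exp_add]; simp
    have h4 := Real.exp_pos (-t)
    nlinarith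
  have hm0 : 0 < max (nd (ρ * w)) y := hy.trans_le (le_max_right _ _)
  have hexp2 : Real.exp (-(2 * w)) = (Real.exp (-w)) ^ 2 := by
    rw [← Real.exp_nat_mul]; congr 1; push_cast; ring
  rcases le_total x 1 with hx1 | hx1
  · have h2 : Real.exp (-w) ≤ Real.exp (-w * x) := Real.exp_le_exp.2 (by nlinarith)
    have h3 : w * x * Real.exp (-w) ≤ 1 - Real.exp (-w * x) := by
      have := hbase (w * x) (by positivity)
      rw [show -(w * x) = -w * x by ring] at this
      refine le_trans ?_ this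
      gcongr
    have h3' : (w * x * Real.exp (-w)) ^ 2 ≤ (1 - Real.exp (-w * x)) ^ 2 :=
      pow_le_pow_left₀ (by positivity) h3 2
    rcases le_total (nd (ρ * w)) y with h | h
    · rw [max_eq_right h]
      calc cf w * y ^ 2 ≤ (w ^ 2 * Real.exp (-(2 * w))) * x ^ 2 := by
            gcongr
            exact min_le_left _ _
        _ = (w * x * Real.exp (-w)) ^ 2 := by rw [hexp2]; ring
        _ ≤ (1 - Real.exp (-w * x)) ^ 2 := h3'
        _ ≤ _ := by
            have : 0 ≤ 2 * Real.exp (-w * x) * (1 - Real.cos (w * (2 * Real.pi * ρ))) := by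
              positivity
            linarith
    · rw [max_eq_left h]
      have h4 := nd_nonneg (ρ * w)
      calc cf w * (nd (ρ * w)) ^ 2 ≤ (16 * Real.exp (-w)) * (nd (ρ * w)) ^ 2 := by
            gcongr
            exact min_le_right _ _
        _ = 2 * Real.exp (-w) * (8 * (nd (ρ * w)) ^ 2) := by ring
        _ ≤ 2 * Real.exp (-w * x) * (1 - Real.cos (w * (2 * Real.pi * ρ))) := by gcongr
        _ ≤ _ := by
            have : 0 ≤ (1 - Real.exp (-w * x)) ^ 2 := by positivity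
            linarith
  · have h2 : Real.exp (-w * x) ≤ Real.exp (-w) := Real.exp_le_exp.2 (by nlinarith)
    have h3 := hbase w hw.le
    have h4 : (w * Real.exp (-w)) ^ 2 ≤ (1 - Real.exp (-w * x)) ^ 2 :=
      pow_le_pow_left₀ (by positivity) (by linarith) 2
    have h5 : max (nd (ρ * w)) y ≤ 1 := max_le ((nd_le_half _).trans (by norm_num)) hy1
    have h6 : (max (nd (ρ * w)) y) ^ 2 ≤ 1 := pow_le_one₀ hm0.le h5
    calc cf w * (max (nd (ρ * w)) y) ^ 2 ≤ (w ^ 2 * Real.exp (-(2 * w))) * 1 := by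
          gcongr
          exact min_le_left _ _
      _ = (w * Real.exp (-w)) ^ 2 := by rw [hexp2]; ring
      _ ≤ (1 - Real.exp (-w * x)) ^ 2 := h4
      _ ≤ _ := by
          have : 0 ≤ 2 * Real.exp (-w * x) * (1 - Real.cos (w * (2 * Real.pi * ρ))) := by
            positivity
          linarith

variable {r : ℕ} {a : ℝ} {w : Fin r → ℝ}

/-- the kernel on the ray and the near resonances -/
lemma KK_ray_le (hw : ∀ j, 0 < w j) {η u y : ℝ} (hη : 0 < η) (hη1 : η ≤ 1)
    (hy : 0 < y) (hyx : y ≤ Real.exp (-u) * Real.sin η) (hy1 : y ≤ 1) :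
    ‖KK a w (zr u η)‖ₑ ^ 2 ≤ ENNReal.ofReal (Real.exp (-(2 * a) * (Real.exp (-u) * Real.sin η))) *
      ENNReal.ofReal ((∏ j, (cf (w j))⁻¹) *
        ∏ j, ((max (nd ((Real.cos η / (2 * Real.pi)) * Real.exp (-u) * w j)) y) ^ 2)⁻¹) := by
  have hp := Real.pi_pos
  rw [KK_enorm, zr_eq]
  set x : ℝ := Real.exp (-u) * Real.sin η with hx
  set ρ : ℝ := (Real.cos η / (2 * Real.pi)) * Real.exp (-u) with hρ
  have hre : (((x : ℝ) : ℂ) + ((Real.exp (-u) * Real.cos η : ℝ) : ℂ) * I).re = x := by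
    rw [Complex.add_re, Complex.ofReal_re, Complex.re_ofReal_mul, Complex.I_re, mul_zero, add_zero]
  rw [hre]
  have hcρ : Real.exp (-u) * Real.cos η = 2 * Real.pi * ρ := by
    rw [hρ]; field_simp
  rw [hcρ]
  gcongr
  have hx0 : 0 < x := hy.trans_le hyx
  have h1 : ∀ j, fac (w j) ((x : ℂ) + ((2 * Real.pi * ρ : ℝ) : ℂ) * I) ≤
      ENNReal.ofReal ((cf (w j))⁻¹ * ((max (nd (ρ * w j)) y) ^ 2)⁻¹) := by
    intro j
    unfold fac
    apply ENNReal.ofReal_le_ofReal
    rw [← mul_inv]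
    have hm0 : 0 < max (nd (ρ * w j)) y := hy.trans_le (le_max_right _ _)
    have := cf_pos (hw j)
    exact inv_anti₀ (by positivity) (fac_lower (hw j) hx0 hy hyx hy1)
  calc ∏ j, fac (w j) ((x : ℂ) + ((2 * Real.pi * ρ : ℝ) : ℂ) * I) ≤
      ∏ j, ENNReal.ofReal ((cf (w j))⁻¹ * ((max (nd (ρ * w j)) y) ^ 2)⁻¹) :=
        Finset.prod_le_prod' fun j _ => h1 j
    _ = ENNReal.ofReal (∏ j, ((cf (w j))⁻¹ * ((max (nd (ρ * w j)) y) ^ 2)⁻¹)) := by
        rw [ENNReal.ofReal_prod_of_nonneg]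
        intro j _
        have hm0 : 0 < max (nd (ρ * w j)) y := hy.trans_le (le_max_right _ _)
        have := cf_pos (hw j)
        positivity
    _ = _ := by rw [Finset.prod_mul_distrib]

lemma log_le_rpow' {ε : ℝ} (hε : 0 < ε) {T : ℝ} (hT : 1 ≤ T) : Real.log T ≤ T ^ ε / ε :=
  Real.log_le_rpow_div (by linarith) hε

lemma lint_biUnion (F : ℝ → ENNReal) (E : ℕ → Set ℝ) (N : ℕ) :
    ∫⁻ u in ⋃ n ∈ Finset.range N, E n, F u ≤ ∑ n ∈ Finset.range N, ∫⁻ u in E n, F u := by
  induction N with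
  | zero => simp
  | succ N ih =>
    rw [Finset.sum_range_succ]
    have h1 : (⋃ n ∈ Finset.range (N + 1), E n) = (⋃ n ∈ Finset.range N, E n) ∪ E N := by
      ext u
      simp only [mem_iUnion, Finset.mem_range, mem_union, exists_prop]
      constructor
      · rintro ⟨n, hn, hu⟩
        rcases Nat.lt_succ_iff_lt_or_eq.1 hn with h | h
        · exact Or.inl ⟨n, h, hu⟩
        · exact Or.inr (h ▸ hu)
      · rintro (⟨n, hn, hu⟩ | hu)
        · exact ⟨n, by omega, hu⟩
        · exact ⟨N, by omega, hu⟩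
    rw [h1]
    exact (lintegral_union_le _ _ _).trans (add_le_add ih le_rfl)

theorem JJ_le (hr : 0 < r) (ha : 0 < a) (hw : ∀ j, 0 < w j) {σ θ : ℝ} (hσ : 0 < σ) (hθ : 1 ≤ θ)
    (h : Dio w (2 * σ) θ) {ε : ℝ} (hε : 0 < ε) (U : ℝ) :
    ∃ C : ℝ, 0 < C ∧ ∀ T : ℝ, 1 ≤ T →
      JJ a w σ U (1 / T) ≤ ENNReal.ofReal (C * T ^ (2 * σ + θ - 1 + 2 * ε)) := by
  classical
  have hp := Real.pi_pos
  have hcos1 : 0 < Real.cos 1 := Real.cos_one_pos
  set U' : ℝ := max U 0 with hU'
  have hU'0 : 0 ≤ U' := le_max_right _ _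
  set b₀ : ℝ := Real.cos 1 / (2 * Real.pi) with hb₀
  have hb₀0 : 0 < b₀ := by positivity
  obtain ⟨C₁, hC₁, hblk⟩ := block_le hr hw (by positivity : 0 ≤ 2 * σ) hθ h
    (p₀ := b₀ * Real.exp (-U')) (by positivity) hε
  obtain ⟨G, hG, hgf⟩ := gf_lint_scale (σ := 2 * σ) (c := a) (by positivity) ha
  set K : ℝ := ∏ j, (cf (w j))⁻¹ with hK
  have hK0 : 0 < K := Finset.prod_pos fun j _ => inv_pos.2 (cf_pos (hw j))
  set q : ℝ := 2 * σ + θ - 1 + ε with hq
  have hq0 : 0 < q := by linarith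
  set C₂ : ℝ := K * C₁ * Real.exp (ε * U') * (2 * Real.exp 1) ^ q with hC₂
  have hC₂0 : 0 < C₂ := by positivity
  refine ⟨(U' + 1 / ε + 1) * C₂ + K * 4 ^ r * G + 1, by positivity, fun T hT => ?_⟩
  have hT0 : 0 < T := by linarith
  set η : ℝ := 1 / T with hη
  have hη0 : 0 < η := by positivity
  have hη1 : η ≤ 1 := by rw [hη, div_le_one hT0]; exact hT
  have hηT : η * T = 1 := by rw [hη]; field_simp
  have hsin := sin_ge hη0.le hη1
  have hsin0 : 0 < Real.sin η := by linarith
  have hlogT : 0 ≤ Real.log T := Real.log_nonneg hT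
  set N : ℕ := ⌈U' + Real.log T⌉₊ with hN
  have hN1 : U' + Real.log T ≤ N := Nat.le_ceil _
  have hN2 : (N : ℝ) < U' + Real.log T + 1 := Nat.ceil_lt_add_one (by positivity)
  set b : ℝ := Real.cos η / (2 * Real.pi) with hb
  have hcη : Real.cos 1 ≤ Real.cos η :=
    Real.cos_le_cos_of_nonneg_of_le_pi hη0.le (by linarith [Real.pi_gt_three]) hη1
  have hbb : b₀ ≤ b := by rw [hb₀, hb]; gcongr
  have hb0 : 0 < b := hb₀0.trans_le hbb
  have hb1 : b ≤ 1 := by
    rw [hb, div_le_one (by positivity)]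
    linarith [Real.cos_le_one η, Real.pi_gt_three]
  set F : ℝ → ENNReal := fun u => ‖KK a w (zr u η)‖ₑ ^ 2 *
    ENNReal.ofReal (Real.exp (-(2 * σ) * u)) with hF
  have hJ : JJ a w σ U η ≤ ∫⁻ u in Iic U', F u := by
    unfold JJ
    exact lintegral_mono_set (Iic_subset_Iic.2 (le_max_left _ _))
  refine hJ.trans ?_
  -- the cover
  have hcov : Iic U' ⊆ (⋃ n ∈ Finset.range N, Icc (U' - (n + 1)) (U' - (n + 1) + 1)) ∪
      Iic (U' - N) := by
    intro u hu
    have hu' : u ≤ U' := hu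
    by_cases hlast : u ≤ U' - N
    · exact Or.inr hlast
    · left
      rw [not_le] at hlast
      simp only [mem_iUnion]
      have h1 : 0 ≤ U' - u := by linarith
      refine ⟨⌊U' - u⌋₊, ?_, ?_, ?_⟩
      · rw [Finset.mem_range, Nat.floor_lt h1]
        linarith
      · have := Nat.lt_floor_add_one (U' - u)
        linarith
      · have := Nat.floor_le h1
        linarith
  -- the blocks
  have hblock : ∀ n ∈ Finset.range N, ∫⁻ u in Icc (U' - (n + 1)) (U' - (n + 1) + 1), F u ≤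
      ENNReal.ofReal (C₂ * T ^ q) := by
    intro n hn
    have hnN : (n : ℝ) + 1 ≤ N := by
      have := Finset.mem_range.1 hn
      exact_mod_cast this
    set u₀ : ℝ := U' - (n + 1) with hu₀
    set X : ℝ := Real.exp (-u₀) with hX
    have hX0 : 0 < X := Real.exp_pos _
    have hXU : Real.exp (-U') ≤ X := Real.exp_le_exp.2 (by rw [hu₀]; linarith [Nat.cast_nonneg (α := ℝ) n])
    set y : ℝ := X / (2 * Real.exp 1 * T) with hy
    have hy0 : 0 < y := by positivity
    have hXe : X / Real.exp 1 ≤ T := by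
      have h1 : X / Real.exp 1 = Real.exp (n - U') := by
        rw [hX, ← Real.exp_sub]; congr 1; rw [hu₀]; ring
      rw [h1, ← Real.le_log_iff_exp_le hT0]
      linarith
    have hyeq : y = X / Real.exp 1 * (η / 2) := by
      rw [hy, hη]; field_simp
    have hy1 : y ≤ 1 := by
      rw [hyeq]
      calc X / Real.exp 1 * (η / 2) ≤ T * (η / 2) := by gcongr
        _ = (η * T) / 2 := by ring
        _ ≤ 1 := by rw [hηT]; norm_num
    have hpt : ∀ u ∈ Icc u₀ (u₀ + 1), F u ≤ ENNReal.ofReal (K * X ^ (2 * σ)) *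
        ENNReal.ofReal (∏ j, ((max (nd (b * Real.exp (-u) * w j)) y) ^ 2)⁻¹) := by
      intro u hu
      have hyx : y ≤ Real.exp (-u) * Real.sin η := by
        rw [hyeq]
        have h1 : X / Real.exp 1 ≤ Real.exp (-u) := by
          rw [hX, ← Real.exp_sub]
          apply Real.exp_le_exp.2
          linarith [hu.2]
        gcongr
      have h1 := KK_ray_le (a := a) hw (u := u) hη0 hη1 hy0 hyx hy1
      have h2 : Real.exp (-(2 * a) * (Real.exp (-u) * Real.sin η)) ≤ 1 := by
        apply Real.exp_le_one_iff.2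
        have : 0 ≤ a * (Real.exp (-u) * Real.sin η) := by positivity
        linarith
      have h3 : Real.exp (-(2 * σ) * u) ≤ X ^ (2 * σ) := by
        rw [hX, ← Real.exp_mul]
        apply Real.exp_le_exp.2
        nlinarith [hu.1]
      have hprod : 0 ≤ ∏ j, ((max (nd (b * Real.exp (-u) * w j)) y) ^ 2)⁻¹ :=
        Finset.prod_nonneg fun j _ => by positivity
      calc F u ≤ (ENNReal.ofReal (Real.exp (-(2 * a) * (Real.exp (-u) * Real.sin η))) *
            ENNReal.ofReal (K * ∏ j, ((max (nd (b * Real.exp (-u) * w j)) y) ^ 2)⁻¹)) *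
            ENNReal.ofReal (Real.exp (-(2 * σ) * u)) := by
            rw [hF]
            exact mul_le_mul_left h1 _
        _ ≤ (ENNReal.ofReal 1 *
            ENNReal.ofReal (K * ∏ j, ((max (nd (b * Real.exp (-u) * w j)) y) ^ 2)⁻¹)) *
            ENNReal.ofReal (X ^ (2 * σ)) := by gcongr
        _ = _ := by
            rw [ENNReal.ofReal_one, one_mul, ← ENNReal.ofReal_mul (by positivity),
              ← ENNReal.ofReal_mul (by positivity)]
            congr 1
            ring
    calc ∫⁻ u in Icc u₀ (u₀ + 1), F u ≤ ∫⁻ u in Icc u₀ (u₀ + 1),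
          ENNReal.ofReal (K * X ^ (2 * σ)) *
          ENNReal.ofReal (∏ j, ((max (nd (b * Real.exp (-u) * w j)) y) ^ 2)⁻¹) :=
          setLIntegral_mono' measurableSet_Icc hpt
      _ = ENNReal.ofReal (K * X ^ (2 * σ)) * ∫⁻ u in Icc u₀ (u₀ + 1),
          ENNReal.ofReal (∏ j, ((max (nd (b * Real.exp (-u) * w j)) y) ^ 2)⁻¹) := by
          rw [lintegral_const_mul' _ _ ENNReal.ofReal_ne_top]
      _ ≤ ENNReal.ofReal (K * X ^ (2 * σ)) *
          ENNReal.ofReal (C₁ * ((b * Real.exp (-u₀)) ^ (θ - 1) * y ^ (1 - 2 * σ - θ - ε))) := by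
          gcongr
          refine hblk b u₀ y hb0 ?_ hy0 hy1
          exact mul_le_mul hbb hXU (Real.exp_pos _).le hb0.le
      _ = ENNReal.ofReal (K * X ^ (2 * σ) *
          (C₁ * ((b * X) ^ (θ - 1) * y ^ (1 - 2 * σ - θ - ε)))) := by
          rw [← ENNReal.ofReal_mul (by positivity)]
      _ ≤ _ := by
          apply ENNReal.ofReal_le_ofReal
          have h1 : (b * X) ^ (θ - 1) ≤ X ^ (θ - 1) :=
            Real.rpow_le_rpow (by positivity) (by nlinarith) (by linarith)
          have h2 : y ^ (1 - 2 * σ - θ - ε) = X ^ (-q) * ((2 * Real.exp 1) ^ q * T ^ q) := by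
            rw [hy, show 1 - 2 * σ - θ - ε = -q by rw [hq]; ring,
              Real.div_rpow hX0.le (by positivity), Real.rpow_neg (by positivity : 0 ≤ 2 * Real.exp 1 * T),
              div_inv_eq_mul, Real.mul_rpow (by positivity) hT0.le]
          have h3 : X ^ (2 * σ) * (X ^ (θ - 1) * X ^ (-q)) = X ^ (-ε) := by
            rw [← Real.rpow_add hX0, ← Real.rpow_add hX0]
            congr 1
            rw [hq]; ring
          have h4 : X ^ (-ε) ≤ Real.exp (ε * U') := by
            have h5 : X ^ (-ε) ≤ (Real.exp (-U')) ^ (-ε) :=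
              Real.rpow_le_rpow_of_nonpos (Real.exp_pos _) hXU (by linarith)
            have h6 : (Real.exp (-U')) ^ (-ε) = Real.exp (ε * U') := by
              rw [← Real.exp_mul]; congr 1; ring
            exact h5.trans h6.le
          calc K * X ^ (2 * σ) * (C₁ * ((b * X) ^ (θ - 1) * y ^ (1 - 2 * σ - θ - ε)))
              ≤ K * X ^ (2 * σ) * (C₁ * (X ^ (θ - 1) * y ^ (1 - 2 * σ - θ - ε))) := by gcongr
            _ = K * C₁ * (X ^ (2 * σ) * (X ^ (θ - 1) * X ^ (-q))) * ((2 * Real.exp 1) ^ q * T ^ q) := by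
                rw [h2]; ring
            _ ≤ K * C₁ * Real.exp (ε * U') * ((2 * Real.exp 1) ^ q * T ^ q) := by
                rw [h3]; gcongr
            _ = _ := by rw [hC₂]; ring
  -- the tail
  have htail : ∫⁻ u in Iic (U' - N), F u ≤ ENNReal.ofReal (K * 4 ^ r * G * T ^ (2 * σ)) := by
    have hpt : ∀ u ∈ Iic (U' - N), F u ≤ ENNReal.ofReal (K * 4 ^ r) *
        ENNReal.ofReal (gf (2 * σ) (a * η) u) := by
      intro u hu
      have hu' : u ≤ U' - N := hu
      have hTe : T ≤ Real.exp (-u) := by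
        rw [← Real.log_le_iff_le_exp hT0]
        linarith
      have hx : Real.exp (-u) * (η / 2) ≤ Real.exp (-u) * Real.sin η := by gcongr
      have hyx : (1 / 2 : ℝ) ≤ Real.exp (-u) * Real.sin η := by
        calc (1 / 2 : ℝ) = T * (η / 2) := by linarith
          _ ≤ Real.exp (-u) * (η / 2) := by gcongr
          _ ≤ _ := hx
      have h1 := KK_ray_le (a := a) hw (u := u) hη0 hη1 (by norm_num : (0 : ℝ) < 1 / 2) hyx
        (by norm_num)
      have h2 : ∏ j, ((max (nd (b * Real.exp (-u) * w j)) (1 / 2)) ^ 2)⁻¹ ≤ (4 : ℝ) ^ r := by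
        have : (4 : ℝ) ^ r = ∏ _j : Fin r, (4 : ℝ) := by
          rw [Finset.prod_const, Finset.card_univ, Fintype.card_fin]
        rw [this]
        refine Finset.prod_le_prod (fun _ _ => by positivity) (fun j _ => ?_)
        have h3 : (1 / 2 : ℝ) ≤ max (nd (b * Real.exp (-u) * w j)) (1 / 2) := le_max_right _ _
        calc ((max (nd (b * Real.exp (-u) * w j)) (1 / 2)) ^ 2)⁻¹ ≤ (((1 : ℝ) / 2) ^ 2)⁻¹ := by
              gcongr
          _ = 4 := by norm_num
      have h3 : Real.exp (-(2 * a) * (Real.exp (-u) * Real.sin η)) ≤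
          Real.exp (-(a * η) * Real.exp (-u)) := by
        apply Real.exp_le_exp.2
        nlinarith
      calc F u ≤ (ENNReal.ofReal (Real.exp (-(2 * a) * (Real.exp (-u) * Real.sin η))) *
            ENNReal.ofReal (K * ∏ j, ((max (nd (b * Real.exp (-u) * w j)) (1 / 2)) ^ 2)⁻¹)) *
            ENNReal.ofReal (Real.exp (-(2 * σ) * u)) := by
            rw [hF]
            exact mul_le_mul_left h1 _
        _ ≤ (ENNReal.ofReal (Real.exp (-(a * η) * Real.exp (-u))) *
            ENNReal.ofReal (K * 4 ^ r)) * ENNReal.ofReal (Real.exp (-(2 * σ) * u)) := by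
            gcongr
        _ = _ := by
            unfold gf
            rw [← ENNReal.ofReal_mul (by positivity), ← ENNReal.ofReal_mul (by positivity),
              ← ENNReal.ofReal_mul (by positivity)]
            congr 1
            ring
    calc ∫⁻ u in Iic (U' - N), F u ≤ ∫⁻ u in Iic (U' - N), ENNReal.ofReal (K * 4 ^ r) *
          ENNReal.ofReal (gf (2 * σ) (a * η) u) := setLIntegral_mono' measurableSet_Iic hpt
      _ = ENNReal.ofReal (K * 4 ^ r) * ∫⁻ u in Iic (U' - N),
          ENNReal.ofReal (gf (2 * σ) (a * η) u) := by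
          rw [lintegral_const_mul' _ _ ENNReal.ofReal_ne_top]
      _ ≤ ENNReal.ofReal (K * 4 ^ r) * ∫⁻ u, ENNReal.ofReal (gf (2 * σ) (a * η) u) := by
          gcongr
          exact Measure.restrict_le_self
      _ = _ := by
          rw [hgf η hη0, ← ENNReal.ofReal_mul (by positivity)]
          congr 1
          have : η ^ (-(2 * σ)) = T ^ (2 * σ) := by
            rw [hη, one_div, Real.inv_rpow hT0.le, ← Real.rpow_neg hT0.le, neg_neg]
          rw [this]
          ring
  calc ∫⁻ u in Iic U', F u ≤ ∫⁻ u in (⋃ n ∈ Finset.range N,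
        Icc (U' - (n + 1)) (U' - (n + 1) + 1)) ∪ Iic (U' - N), F u := lintegral_mono_set hcov
    _ ≤ (∫⁻ u in (⋃ n ∈ Finset.range N, Icc (U' - (n + 1)) (U' - (n + 1) + 1)), F u) +
        ∫⁻ u in Iic (U' - N), F u := lintegral_union_le _ _ _
    _ ≤ (∑ n ∈ Finset.range N, ∫⁻ u in Icc (U' - (n + 1)) (U' - (n + 1) + 1), F u) +
        ∫⁻ u in Iic (U' - N), F u := by
        gcongr
        exact lint_biUnion _ _ _
    _ ≤ (∑ _n ∈ Finset.range N, ENNReal.ofReal (C₂ * T ^ q)) +
        ENNReal.ofReal (K * 4 ^ r * G * T ^ (2 * σ)) :=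
        add_le_add (Finset.sum_le_sum hblock) htail
    _ = ENNReal.ofReal (N * (C₂ * T ^ q) + K * 4 ^ r * G * T ^ (2 * σ)) := by
        rw [Finset.sum_const, Finset.card_range, nsmul_eq_mul,
          ENNReal.ofReal_add (by positivity) (by positivity),
          ENNReal.ofReal_mul (by positivity : (0 : ℝ) ≤ N), ENNReal.ofReal_natCast]
    _ ≤ _ := by
        apply ENNReal.ofReal_le_ofReal
        have h1 : (N : ℝ) ≤ (U' + 1 / ε + 1) * T ^ ε := by
          have h2 := log_le_rpow' hε hT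
          have h3 : 1 ≤ T ^ ε := Real.one_le_rpow hT hε.le
          have h4 : T ^ ε / ε = 1 / ε * T ^ ε := by ring
          nlinarith [hN2]
        have h2 : T ^ ε * T ^ q = T ^ (2 * σ + θ - 1 + 2 * ε) := by
          rw [← Real.rpow_add hT0]; congr 1; rw [hq]; ring
        have h3 : T ^ (2 * σ) ≤ T ^ (2 * σ + θ - 1 + 2 * ε) :=
          Real.rpow_le_rpow_of_exponent_le hT (by linarith)
        have h4 : 0 < T ^ (2 * σ + θ - 1 + 2 * ε) := by positivity
        calc (N : ℝ) * (C₂ * T ^ q) + K * 4 ^ r * G * T ^ (2 * σ) ≤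
            ((U' + 1 / ε + 1) * T ^ ε) * (C₂ * T ^ q) +
              K * 4 ^ r * G * T ^ (2 * σ + θ - 1 + 2 * ε) := by gcongr
          _ = ((U' + 1 / ε + 1) * C₂ + K * 4 ^ r * G) * T ^ (2 * σ + θ - 1 + 2 * ε) := by
              rw [← h2]; ring
          _ ≤ _ := by
              exact mul_le_mul_of_nonneg_right (by linarith) h4.le

end Pool.Agent.H312.Barnes
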