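import Pool.Agent.H312.Barnes.Ms
import Pool.Agent.H312.Barnes.Dir

set_option autoImplicit false

/-!
# The Diophantine condition and exponents of simultaneous approximation
-/

namespace Pool.Agent.H312.Barnes

open Filter Topology

variable {r : ℕ} {w : Fin r → ℝ}

/-- weights which are not approximable -/
lemma napprox {κ : ℝ} (hκ : 0 ≤ κ) (h : ¬ SimApprox w Finset.univ κ) :
    ∃ c : ℝ, 0 < c ∧ c ≤ 1 ∧ ∀ ρ : ℝ, 1 ≤ ρ → ∃ j, c * ρ ^ (-κ) ≤ nd (ρ * w j) := by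
  unfold SimApprox at h
  push Not at h
  obtain ⟨X, hX⟩ := h 1
  have hX' : ∀ D : ℝ, X ≤ D → ∃ j, D ^ (-κ) < nd (D * w j) := by
    intro D hD
    obtain ⟨j, -, hj⟩ := hX D hD
    refine ⟨j, ?_⟩
    have := hj (round (D * w j))
    rw [one_mul] at this
    exact this
  obtain ⟨m, hm⟩ := exists_nat_ge (max 1 X)
  have hm1 : (1 : ℝ) ≤ m := (le_max_left _ _).trans hm
  have hmX : X ≤ m := (le_max_right _ _).trans hm
  have hm0 : (0 : ℝ) < m := by linarith
  refine ⟨(m : ℝ) ^ (-κ) / m, by positivity, ?_, fun ρ hρ => ?_⟩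
  · rw [div_le_one hm0]
    exact (Real.rpow_le_one_of_one_le_of_nonpos hm1 (by linarith)).trans hm1
  · have hρ0 : 0 < ρ := by linarith
    obtain ⟨j, hj⟩ := hX' (m * ρ) (by nlinarith)
    refine ⟨j, ?_⟩
    have h1 := nd_nat_mul (ρ * w j) m
    rw [← mul_assoc] at h1
    rw [Real.mul_rpow hm0.le hρ0.le] at hj
    rw [div_mul_eq_mul_div, div_le_iff₀ hm0]
    linarith

/-- the Diophantine condition from an upper bound for the exponent of approximation -/
lemma dio_of_napprox (hr : 0 < r) {κ σ : ℝ} (hκ : 0 < κ) (h : ¬ SimApprox w Finset.univ κ)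
    (h1 : 0 ≤ r - σ) (h2 : r - σ ≤ 1 + κ) : Dio w (2 * σ) (2 * (r - σ) * κ / (1 + κ)) := by
  obtain ⟨c, hc, hc1, hn⟩ := napprox hκ.le h
  have hκ1 : 0 < 1 + κ := by linarith
  set θ : ℝ := 2 * (r - σ) * κ / (1 + κ) with hθ
  have hθ0 : 0 ≤ θ := by positivity
  refine ⟨c ^ 2, by positivity, fun ρ y hρ hy hy1 => ?_⟩
  have hρ0 : 0 < ρ := by linarith
  obtain ⟨j, hj⟩ := hn ρ hρ
  set m := max (c * ρ ^ (-κ)) y with hm
  have hm0 : 0 < m := hy.trans_le (le_max_right _ _)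
  -- the product
  have h3 : y ^ (2 * (r - 1)) * m ^ 2 ≤ ∏ j, (max (nd (ρ * w j)) y) ^ 2 := by
    classical
    rw [← Finset.mul_prod_erase Finset.univ _ (Finset.mem_univ j)]
    have h4 : y ^ (2 * (r - 1)) ≤ ∏ i ∈ Finset.univ.erase j, (max (nd (ρ * w i)) y) ^ 2 := by
      have : y ^ (2 * (r - 1)) = ∏ _i ∈ Finset.univ.erase j, y ^ 2 := by
        rw [Finset.prod_const, Finset.card_erase_of_mem (Finset.mem_univ j), Finset.card_univ,
          Fintype.card_fin, ← pow_mul]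
      rw [this]
      refine Finset.prod_le_prod (fun _ _ => by positivity) (fun i _ => ?_)
      exact pow_le_pow_left₀ hy.le (le_max_right _ _) 2
    have h5 : m ^ 2 ≤ (max (nd (ρ * w j)) y) ^ 2 :=
      pow_le_pow_left₀ hm0.le (max_le_max_right y hj) 2
    calc y ^ (2 * (r - 1)) * m ^ 2 = m ^ 2 * y ^ (2 * (r - 1)) := by ring
      _ ≤ _ := mul_le_mul h5 h4 (by positivity) (by positivity)
  refine le_trans ?_ h3
  -- the exponents
  set l : ℝ := 2 * (r - σ) / (1 + κ) with hl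
  have hl0 : 0 ≤ l := by positivity
  have hl2 : l ≤ 2 := by
    rw [hl, div_le_iff₀ hκ1]
    linarith
  have hlθ : l * κ = θ := by rw [hl, hθ]; ring
  have hexp : 2 * σ + θ = ((2 * (r - 1) : ℕ) : ℝ) + (2 - l) := by
    rw [hθ, hl]
    push_cast [Nat.cast_sub hr]
    field_simp
    ring
  have h6 : m ^ (2 : ℝ) = m ^ l * m ^ (2 - l) := by
    rw [← Real.rpow_add hm0]; congr 1; ring
  have h7 : c ^ 2 * ρ ^ (-θ) ≤ m ^ l := by
    have h8 : (c * ρ ^ (-κ)) ^ l ≤ m ^ l := Real.rpow_le_rpow (by positivity) (le_max_left _ _) hl0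
    rw [Real.mul_rpow hc.le (by positivity), ← Real.rpow_mul hρ0.le] at h8
    have h9 : -κ * l = -θ := by rw [← hlθ]; ring
    rw [h9] at h8
    have h10 : c ^ 2 ≤ c ^ l := by
      rw [← Real.rpow_natCast]
      exact Real.rpow_le_rpow_of_exponent_ge hc hc1 (by exact_mod_cast hl2)
    refine le_trans ?_ h8
    gcongr
  have h11 : y ^ (2 - l) ≤ m ^ (2 - l) := Real.rpow_le_rpow hy.le (le_max_right _ _) (by linarith)
  have h12 : m ^ 2 = m ^ (2 : ℝ) := by norm_cast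
  rw [h12, h6, hexp, Real.rpow_add hy, Real.rpow_natCast]
  calc c ^ 2 * (y ^ (2 * (r - 1)) * y ^ (2 - l) * ρ ^ (-θ)) =
      y ^ (2 * (r - 1)) * ((c ^ 2 * ρ ^ (-θ)) * y ^ (2 - l)) := by ring
    _ ≤ _ := by gcongr

/-- the Diophantine condition bounds the exponent of approximation -/
lemma approx_dio {κ σ θ : ℝ} (hκ : 0 < κ) (h : SimApprox w Finset.univ κ) (hD : Dio w (2 * σ) θ) :
    2 * κ * (r - σ) ≤ (1 + κ) * θ := by
  by_contra hcon
  rw [not_le] at hcon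
  obtain ⟨c, hc, hD⟩ := hD
  obtain ⟨C0, hC0⟩ := h
  set C : ℝ := max C0 1 with hC
  have hC1 : 1 ≤ C := le_max_right _ _
  have hC0' : C0 ≤ C := le_max_left _ _
  have hCp : 0 < C := by linarith
  set q : ℝ := 2 * r - 2 * σ - θ with hq
  set p : ℝ := κ * q - θ with hp
  have hp0 : 0 < p := by rw [hp, hq]; nlinarith
  have hev : ∀ᶠ D : ℝ in atTop, 1 ≤ D ∧ C * D ^ (-κ) ≤ 1 ∧ C ^ q / c < D ^ p := by
    have t1 : Tendsto (fun D : ℝ => C * D ^ (-κ)) atTop (𝓝 (C * 0)) :=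
      (tendsto_rpow_neg_atTop hκ).const_mul C
    rw [mul_zero] at t1
    have t2 : Tendsto (fun D : ℝ => D ^ p) atTop atTop := tendsto_rpow_atTop hp0
    filter_upwards [eventually_ge_atTop (1 : ℝ), t1.eventually_le_const (zero_lt_one' ℝ),
      t2.eventually_gt_atTop (C ^ q / c)] with D h1 h2 h3
    exact ⟨h1, h2, h3⟩
  obtain ⟨X, hX⟩ := eventually_atTop.1 hev
  obtain ⟨D, hD1, hDj⟩ := hC0 X
  obtain ⟨g1, g2, g3⟩ := hX D hD1
  have hD0 : 0 < D := by linarith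
  set y : ℝ := C * D ^ (-κ) with hy
  have hy0 : 0 < y := by positivity
  have h1 := hD D y g1 hy0 g2
  have h2 : ∏ j, (max (nd (D * w j)) y) ^ 2 ≤ y ^ (2 * (r : ℝ)) := by
    have h3 : y ^ (2 * (r : ℝ)) = ∏ _j : Fin r, y ^ 2 := by
      rw [Finset.prod_const, Finset.card_univ, Fintype.card_fin, ← pow_mul, ← Real.rpow_natCast]
      push_cast
      rfl
    rw [h3]
    refine Finset.prod_le_prod (fun _ _ => by positivity) (fun j _ => ?_)
    refine pow_le_pow_left₀ (hy0.le.trans (le_max_right _ _)) (max_le ?_ le_rfl) 2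
    obtain ⟨N, hN⟩ := hDj j (Finset.mem_univ j)
    refine (nd_le _ N).trans (hN.trans ?_)
    rw [hy]
    gcongr
  have h3 := h1.trans h2
  have h4 : y ^ (2 * (r : ℝ)) = y ^ (2 * σ + θ) * y ^ q := by
    rw [← Real.rpow_add hy0]; congr 1; rw [hq]; ring
  rw [h4] at h3
  have h5 : c * D ^ (-θ) ≤ y ^ q := by
    have : 0 < y ^ (2 * σ + θ) := by positivity
    have h6 : y ^ (2 * σ + θ) * (c * D ^ (-θ)) ≤ y ^ (2 * σ + θ) * y ^ q := by linarith
    exact le_of_mul_le_mul_left h6 this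
  have h6 : y ^ q = C ^ q * D ^ (-(κ * q)) := by
    rw [hy, Real.mul_rpow hCp.le (by positivity), ← Real.rpow_mul hD0.le]
    congr 2
    ring
  rw [h6] at h5
  have h7 : c * D ^ p ≤ C ^ q := by
    have h8 : D ^ p = D ^ (-θ) * D ^ (κ * q) := by
      rw [← Real.rpow_add hD0]; congr 1; rw [hp]; ring
    have h9 : D ^ (-(κ * q)) * D ^ (κ * q) = 1 := by
      rw [← Real.rpow_add hD0]; simp
    calc c * D ^ p = (c * D ^ (-θ)) * D ^ (κ * q) := by rw [h8]; ring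
      _ ≤ (C ^ q * D ^ (-(κ * q))) * D ^ (κ * q) := by gcongr
      _ = C ^ q * (D ^ (-(κ * q)) * D ^ (κ * q)) := by ring
      _ = C ^ q := by rw [h9, mul_one]
  rw [div_lt_iff₀ hc] at g3
  linarith

end Pool.Agent.H312.Barnes
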