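import Pool.Agent.H312.Barnes.Up

set_option autoImplicit false

/-!
# Barnes multiple zeta function: large values for simultaneously well approximable weights,
# quantitative in the exponent of approximation
-/

namespace Pool.Agent.H312.Barnes

open Finset Filter Topology MeasureTheory Complex Set Asymptotics
open Pool.Agent.H131R5.BZ Pool.Agent.Y930.Bz

variable {r : ℕ} {a : ℝ} {w : Fin r → ℝ} {c : ℕ → ℂ}

/-- There are arbitrarily large real numbers `D` such that all `D w_j`, `j ∈ J`, are within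
`C D ^ (-κ)` of integers. -/
def SimApprox {r : ℕ} (w : Fin r → ℝ) (J : Finset (Fin r)) (κ : ℝ) : Prop :=
  ∃ C : ℝ, ∀ X : ℝ, ∃ D : ℝ, X ≤ D ∧ ∀ j ∈ J, ∃ N : ℤ, |D * w j - N| ≤ C * D ^ (-κ)

lemma factor_le2 {b y D : ℝ} (hb : 0 < b) (hy : 0 < y) {N : ℤ}
    (hN : |D * b - N| ≤ y) (hs : (b + 2 * Real.pi) * y ≤ 1) :
    ‖1 - cexp (-(b : ℂ) * ((y : ℂ) + (2 * Real.pi * D : ℝ) * I))‖ ≤
      2 * (b + 2 * Real.pi) * y := by
  set u : ℂ := -((b * y : ℝ) : ℂ) - ((2 * Real.pi * (D * b - N) : ℝ) : ℂ) * I with hu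
  have e1 : cexp (-(b : ℂ) * ((y : ℂ) + (2 * Real.pi * D : ℝ) * I)) = cexp u := by
    have e2 : -(b : ℂ) * ((y : ℂ) + (2 * Real.pi * D : ℝ) * I) =
        u - (N : ℤ) * (2 * Real.pi * I) := by
      rw [hu]; push_cast; ring
    rw [e2, Complex.exp_sub, Complex.exp_int_mul_two_pi_mul_I, div_one]
  have hun : ‖u‖ ≤ (b + 2 * Real.pi) * y := by
    rw [hu]
    refine (norm_sub_le _ _).trans ?_
    rw [norm_neg, norm_mul, Complex.norm_I, mul_one, Complex.norm_real, Complex.norm_real,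
      Real.norm_eq_abs, Real.norm_eq_abs, abs_of_pos (mul_pos hb hy), abs_mul,
      abs_of_pos (by positivity : 0 < 2 * Real.pi)]
    have : 2 * Real.pi * |D * b - N| ≤ 2 * Real.pi * y := by gcongr
    linarith
  rw [e1, ← norm_neg, neg_sub]
  calc ‖cexp u - 1‖ ≤ 2 * ‖u‖ := Complex.norm_exp_sub_one_le (hun.trans hs)
    _ ≤ 2 * ((b + 2 * Real.pi) * y) := by gcongr
    _ = _ := by ring

lemma factor_le_two {b y D : ℝ} (hb : 0 < b) (hy : 0 < y) :
    ‖1 - cexp (-(b : ℂ) * ((y : ℂ) + (2 * Real.pi * D : ℝ) * I))‖ ≤ 2 := by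
  refine (norm_sub_le _ _).trans ?_
  rw [norm_one, Complex.norm_exp]
  have hre : (-(b : ℂ) * ((y : ℂ) + (2 * Real.pi * D : ℝ) * I)).re = -(b * y) := by simp
  rw [hre]
  have : Real.exp (-(b * y)) ≤ 1 := Real.exp_le_one_iff.2 (by have := mul_pos hb hy; linarith)
  linarith

lemma KK_lower2 (ha : 0 < a) (hw : ∀ j, 0 < w j) {y : ℝ} (hy : 0 < y) (hy1 : y ≤ 1) {D : ℝ}
    {J : Finset (Fin r)}
    (hN : ∀ j ∈ J, ∃ N : ℤ, |D * w j - N| ≤ y) (hs : ∀ j, (w j + 2 * Real.pi) * y ≤ 1) :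
    Real.exp (-a) * (∏ j, (2 * (w j + 2 * Real.pi))⁻¹) * (y⁻¹) ^ J.card ≤
      ‖KK a w ((y : ℂ) + (2 * Real.pi * D : ℝ) * I)‖ := by
  classical
  unfold KK
  rw [norm_mul, norm_prod, Complex.norm_exp]
  have hre : (-(a : ℂ) * ((y : ℂ) + (2 * Real.pi * D : ℝ) * I)).re = -(a * y) := by simp
  rw [hre, mul_assoc]
  have h1 : Real.exp (-a) ≤ Real.exp (-(a * y)) := Real.exp_le_exp.2 (by nlinarith)
  have h2 : (∏ j, (2 * (w j + 2 * Real.pi))⁻¹) * (y⁻¹) ^ J.card =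
      ∏ j, ((2 * (w j + 2 * Real.pi))⁻¹ * (if j ∈ J then y⁻¹ else 1)) := by
    rw [Finset.prod_mul_distrib]
    congr 1
    rw [Finset.prod_ite_mem]
    simp
  have hwp : ∀ j, 0 < w j + 2 * Real.pi := fun j => by
    have := hw j; have := Real.pi_pos; linarith
  have hwp1 : ∀ j, 1 ≤ w j + 2 * Real.pi := fun j => by
    have := hw j; have := Real.pi_gt_three; linarith
  rw [h2]
  have h0 : ∀ j, 0 ≤ (2 * (w j + 2 * Real.pi))⁻¹ * (if j ∈ J then y⁻¹ else 1) := by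
    intro j
    have := hwp j
    split_ifs <;> positivity
  have h3 : ∏ j, ((2 * (w j + 2 * Real.pi))⁻¹ * (if j ∈ J then y⁻¹ else 1)) ≤
      ∏ j, ‖(1 - cexp (-(w j : ℂ) * ((y : ℂ) + (2 * Real.pi * D : ℝ) * I)))⁻¹‖ := by
    refine Finset.prod_le_prod (fun j _ => h0 j) (fun j _ => ?_)
    have hpos : 0 < ‖1 - cexp (-(w j : ℂ) * ((y : ℂ) + (2 * Real.pi * D : ℝ) * I))‖ :=
      norm_pos_iff.2 (one_sub_ne (hw j) (by simpa using hy))
    rw [norm_inv]
    by_cases hj : j ∈ J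
    · rw [if_pos hj, ← mul_inv]
      obtain ⟨N, hN⟩ := hN j hj
      exact inv_anti₀ hpos (factor_le2 (hw j) hy hN (hs j))
    · rw [if_neg hj, mul_one]
      refine inv_anti₀ hpos ((factor_le_two (hw j) hy).trans ?_)
      have := hwp1 j
      linarith
  exact mul_le_mul h1 h3 (Finset.prod_nonneg fun j _ => h0 j) (Real.exp_pos _).le

lemma theta_lower2 {y : ℝ} (hy : 0 < y) (hy1 : y ≤ 1) {D : ℝ} (hD1 : 1 ≤ D) :
    D ≤ ‖(y : ℂ) + (2 * Real.pi * D : ℝ) * I‖ ∧ 0 ≤ arg ((y : ℂ) + (2 * Real.pi * D : ℝ) * I) ∧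
      y / (8 * D) ≤ Real.pi / 2 - arg ((y : ℂ) + (2 * Real.pi * D : ℝ) * I) := by
  set z : ℂ := (y : ℂ) + (2 * Real.pi * D : ℝ) * I with hz
  have hre : z.re = y := by simp [hz]
  have him : z.im = 2 * Real.pi * D := by simp [hz]
  have hpi := Real.pi_gt_three
  have hpi2 := Real.pi_lt_d2
  have h1 : D ≤ ‖z‖ := by
    have := (le_abs_self _).trans (Complex.abs_im_le_norm z)
    rw [him] at this
    nlinarith
  have h2 : ‖z‖ ≤ 8 * D := by
    have := Complex.norm_le_abs_re_add_abs_im z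
    rw [hre, him, abs_of_pos hy, abs_of_pos (by positivity)] at this
    nlinarith
  have h3 : 0 ≤ arg z := by
    rw [Complex.arg_nonneg_iff, him]; positivity
  have hz0 : z ≠ 0 := by
    intro h; rw [h, norm_zero] at h1; linarith
  have h4 : arg z ≤ Real.pi / 2 :=
    (le_abs_self _).trans (Complex.abs_arg_le_pi_div_two_iff.2 (by rw [hre]; exact hy.le))
  refine ⟨h1, h3, ?_⟩
  have h5 : Real.sin (Real.pi / 2 - arg z) = y / ‖z‖ := by
    rw [Real.sin_pi_div_two_sub, Complex.cos_arg hz0, hre]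
  have h6 : y / ‖z‖ ≤ Real.pi / 2 - arg z := by
    rw [← h5]
    exact Real.sin_le (by linarith)
  refine le_trans ?_ h6
  exact div_le_div_of_nonneg_left hy.le (by linarith) h2

/-- The generating function is large near the imaginary axis. -/
theorem contra2 (ha : 0 < a) (hw : ∀ j, 0 < w j) {J : Finset (Fin r)} {κ : ℝ} (hκ : 0 < κ)
    (hL : SimApprox w J κ) {E e σ : ℝ} (hE : 0 < E)
    (he : 0 < e) (hσ : 0 ≤ σ) (her : (1 + κ) * e - σ < κ * J.card)
    (h : ∀ z : ℂ, 1 ≤ ‖z‖ → 0 < z.re → 0 ≤ arg z →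
      ‖KK a w z‖ ≤ ‖z‖ ^ (-σ) * (E * (1 + (Real.pi / 2 - arg z) ^ (-e)))) : False := by
  obtain ⟨C0, hC0⟩ := hL
  set C : ℝ := max C0 1 with hCdef
  have hC1 : 1 ≤ C := le_max_right _ _
  have hC00 : C0 ≤ C := le_max_left _ _
  have hCp : 0 < C := by linarith
  set cL : ℝ := Real.exp (-a) * ∏ j, (2 * (w j + 2 * Real.pi))⁻¹ with hcL
  have hwp : ∀ j, 0 < w j + 2 * Real.pi := fun j => by
    have := hw j; have := Real.pi_pos; linarith
  have hcL0 : 0 < cL := by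
    have : 0 < ∏ j, (2 * (w j + 2 * Real.pi))⁻¹ :=
      Finset.prod_pos (fun j _ => by have := hwp j; positivity)
    positivity
  set k : ℕ := J.card with hk
  set S : ℝ := (∑ j, (w j + 2 * Real.pi)) + 1 with hS
  have hS0 : 0 ≤ ∑ j, (w j + 2 * Real.pi) := Finset.sum_nonneg fun j _ => (hwp j).le
  set p : ℝ := κ * k - (1 + κ) * e + σ with hp
  have hp0 : 0 < p := by linarith
  set K1 : ℝ := E * (1 + 8 ^ e) with hK1
  have hK10 : 0 < K1 := by positivity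
  -- the conditions on D
  have hev : ∀ᶠ D : ℝ in atTop, 1 ≤ D ∧ S * (C * D ^ (-κ)) ≤ 1 ∧ K1 * C ^ k / cL < D ^ p := by
    have t1 : Tendsto (fun D : ℝ => S * (C * D ^ (-κ))) atTop (𝓝 (S * (C * 0))) :=
      ((tendsto_rpow_neg_atTop hκ).const_mul C).const_mul S
    rw [mul_zero, mul_zero] at t1
    have t2 : Tendsto (fun D : ℝ => D ^ p) atTop atTop := tendsto_rpow_atTop hp0
    filter_upwards [eventually_ge_atTop (1 : ℝ), t1.eventually_le_const (zero_lt_one' ℝ),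
      t2.eventually_gt_atTop (K1 * C ^ k / cL)] with D h1 h2 h3
    exact ⟨h1, h2, h3⟩
  obtain ⟨X, hX⟩ := eventually_atTop.1 hev
  obtain ⟨D, hXD, hD⟩ := hC0 X
  obtain ⟨hD1, hSy, hDK⟩ := hX D hXD
  have hD0 : 0 < D := by linarith
  set y : ℝ := C * D ^ (-κ) with hy
  have hDκ : 0 < D ^ (-κ) := Real.rpow_pos_of_pos hD0 _
  have hy0 : 0 < y := by positivity
  have hy1 : y ≤ 1 := by
    have : y ≤ S * y := by
      rw [hS]; nlinarith
    linarith
  have hN : ∀ j ∈ J, ∃ N : ℤ, |D * w j - N| ≤ y := by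
    intro j hj
    obtain ⟨N, hN⟩ := hD j hj
    refine ⟨N, hN.trans ?_⟩
    rw [hy]
    gcongr
  have hs : ∀ j, (w j + 2 * Real.pi) * y ≤ 1 := by
    intro j
    have h3 : w j + 2 * Real.pi ≤ ∑ j, (w j + 2 * Real.pi) :=
      Finset.single_le_sum (f := fun j => w j + 2 * Real.pi) (fun i _ => (hwp i).le)
        (Finset.mem_univ j)
    have : (w j + 2 * Real.pi) * y ≤ S * y := by
      refine mul_le_mul_of_nonneg_right ?_ hy0.le
      rw [hS]; linarith
    linarith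
  have hlow := KK_lower2 ha hw hy0 hy1 hN hs
  obtain ⟨t1, t2, t3⟩ := theta_lower2 hy0 hy1 hD1
  have hz1 : 1 ≤ ‖(y : ℂ) + (2 * Real.pi * D : ℝ) * I‖ := hD1.trans t1
  have hup := h ((y : ℂ) + (2 * Real.pi * D : ℝ) * I) hz1 (by simpa using hy0) t2
  have hzσ : ‖(y : ℂ) + (2 * Real.pi * D : ℝ) * I‖ ^ (-σ) ≤ D ^ (-σ) :=
    Real.rpow_le_rpow_of_nonpos hD0 t1 (by linarith)
  have h8 : 0 < (8 : ℝ) ^ e := by positivity
  have hth : (Real.pi / 2 - arg ((y : ℂ) + (2 * Real.pi * D : ℝ) * I)) ^ (-e) ≤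
      8 ^ e * D ^ ((1 + κ) * e) := by
    have h1 := Real.rpow_le_rpow_of_nonpos (by positivity : 0 < y / (8 * D)) t3
      (by linarith : -e ≤ 0)
    refine h1.trans ?_
    have h2 : (8 * D ^ (1 + κ))⁻¹ ≤ y / (8 * D) := by
      rw [hy, Real.rpow_add hD0, Real.rpow_one, Real.rpow_neg hD0.le]
      have : 0 < D ^ κ := Real.rpow_pos_of_pos hD0 _
      have e1 : C * (D ^ κ)⁻¹ / (8 * D) = C * (8 * (D * D ^ κ))⁻¹ := by field_simp
      rw [e1]
      have h4 : 0 < (8 * (D * D ^ κ))⁻¹ := by positivity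
      nlinarith
    have h3 := Real.rpow_le_rpow_of_nonpos (by positivity : 0 < (8 * D ^ (1 + κ))⁻¹) h2
      (by linarith : -e ≤ 0)
    refine h3.trans (le_of_eq ?_)
    rw [Real.rpow_neg (by positivity), Real.inv_rpow (by positivity), inv_inv,
      Real.mul_rpow (by norm_num) (by positivity), ← Real.rpow_mul hD0.le]
  have hDe : 1 ≤ D ^ ((1 + κ) * e) := Real.one_le_rpow hD1 (by positivity)
  have hDσ : 0 < D ^ (-σ) := Real.rpow_pos_of_pos hD0 _
  have hDe0 : 0 < D ^ ((1 + κ) * e) := by linarith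
  have hyk : (y⁻¹) ^ k = D ^ (κ * k) / C ^ k := by
    rw [hy, mul_inv, mul_pow, ← Real.rpow_neg hD0.le, neg_neg, ← Real.rpow_natCast (D ^ κ),
      ← Real.rpow_mul hD0.le, inv_pow]
    ring
  have hfin : cL * (D ^ (κ * k) / C ^ k) ≤ K1 * (D ^ (-σ) * D ^ ((1 + κ) * e)) := by
    calc cL * (D ^ (κ * k) / C ^ k) = cL * (y⁻¹) ^ k := by rw [hyk]
      _ ≤ ‖KK a w ((y : ℂ) + (2 * Real.pi * D : ℝ) * I)‖ := hlow
      _ ≤ D ^ (-σ) * (E * (1 + 8 ^ e * D ^ ((1 + κ) * e))) := by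
          refine hup.trans ?_
          have hθ0 : 0 ≤ Real.pi / 2 - arg ((y : ℂ) + (2 * Real.pi * D : ℝ) * I) :=
            le_trans (by positivity) t3
          have hθe0 := Real.rpow_nonneg hθ0 (-e)
          refine mul_le_mul hzσ (mul_le_mul_of_nonneg_left (by linarith) hE.le) ?_ hDσ.le
          exact mul_nonneg hE.le (by linarith)
      _ ≤ D ^ (-σ) * (E * ((1 + 8 ^ e) * D ^ ((1 + κ) * e))) := by
          refine mul_le_mul_of_nonneg_left (mul_le_mul_of_nonneg_left ?_ hE.le) hDσ.le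
          nlinarith
      _ = K1 * (D ^ (-σ) * D ^ ((1 + κ) * e)) := by rw [hK1]; ring
  have hsplit : D ^ (κ * k) = D ^ p * (D ^ (-σ) * D ^ ((1 + κ) * e)) := by
    rw [← Real.rpow_add hD0, ← Real.rpow_add hD0]
    congr 1
    rw [hp]; ring
  have hq : 0 < D ^ (-σ) * D ^ ((1 + κ) * e) := by positivity
  have hfin2 : cL * (D ^ p / C ^ k) ≤ K1 := by
    rw [hsplit] at hfin
    have : cL * (D ^ p / C ^ k) * (D ^ (-σ) * D ^ ((1 + κ) * e)) ≤
        K1 * (D ^ (-σ) * D ^ ((1 + κ) * e)) := by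
      refine le_trans (le_of_eq ?_) hfin
      ring
    exact le_of_mul_le_mul_right this hq
  rw [div_lt_iff₀ hcL0] at hDK
  have hCk : 0 < C ^ k := by positivity
  have : cL * D ^ p ≤ K1 * C ^ k := by
    rw [← mul_div_assoc, div_le_iff₀ hCk] at hfin2
    exact hfin2
  linarith

/-- the lower bound for the order of growth on the line `Re s = σ` which comes from `k` weights
with the exponent of approximation `κ` -/
noncomputable def growth2 (κ : ℝ) (k : ℕ) (σ : ℝ) : ℝ := (κ * (k - σ - 1 / 2) - 1 / 2) / (1 + κ)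

/-- the moments are large -/
theorem not_moment2 (ha : 0 < a) (hw : ∀ j, 0 < w j) {J : Finset (Fin r)} {κ : ℝ} (hκ : 0 < κ)
    (hL : SimApprox w J κ) {Z : ℂ → ℂ}
    (hZ : ∀ s ∈ Om r, DifferentiableAt ℂ Z s)
    (hs : ∀ s : ℂ, (r : ℝ) < s.re → Z s = ∑' m : Fin r → ℕ, ((lam a w m : ℝ) : ℂ) ^ (-s))
    {n : ℕ} (hn : 1 ≤ n) {σ η : ℝ} (hσ : 1 / 2 < σ) (hσr : 0 < growth2 κ J.card σ)
    (hη : η < growth2 κ J.card σ) :
    ¬ (fun T : ℝ => ∫ t in (1 : ℝ)..T, ‖Z ((σ : ℂ) + (t : ℂ) * I)‖ ^ n)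
      =O[atTop] fun T : ℝ => T ^ (1 + n * η) := by
  intro hO
  obtain ⟨c, hc⟩ := exists_taylor a hw
  have hn0 : (0 : ℝ) < n := by exact_mod_cast hn
  have hκ1 : 0 < 1 + κ := by linarith
  have hcard : (J.card : ℝ) ≤ r := by
    have := Finset.card_le_univ J
    simp only [Fintype.card_fin] at this
    exact_mod_cast this
  have hσr' : σ ≤ (r : ℝ) + 1 := by
    have h1 : 0 < κ * (J.card - σ - 1 / 2) - 1 / 2 := by
      have := hσr
      unfold growth2 at this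
      rwa [div_pos_iff_of_pos_right hκ1] at this
    by_contra hcon
    rw [not_le] at hcon
    nlinarith
  have hO' : (fun T : ℝ => ∫ t in (1 : ℝ)..T, ‖FF a w c ((σ : ℂ) + (t : ℂ) * I)‖ ^ n)
      =O[atTop] fun T : ℝ => T ^ (1 + max (n * η) 0) := by
    have h1 : (fun T : ℝ => ∫ t in (1 : ℝ)..T, ‖FF a w c ((σ : ℂ) + (t : ℂ) * I)‖ ^ n) =ᶠ[atTop]
        fun T : ℝ => ∫ t in (1 : ℝ)..T, ‖Z ((σ : ℂ) + (t : ℂ) * I)‖ ^ n := by
      filter_upwards [eventually_ge_atTop (1 : ℝ)] with T hT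
      refine intervalIntegral.integral_congr fun t ht => ?_
      rw [Set.uIcc_of_le hT] at ht
      show ‖FF a w c ((σ : ℂ) + (t : ℂ) * I)‖ ^ n = ‖Z ((σ : ℂ) + (t : ℂ) * I)‖ ^ n
      rw [eq_FF ha hw hc hZ hs _ (mem_Om_of_im (by simpa using ht.1))]
    refine (h1.trans_isBigO hO).trans (IsBigO.of_bound 1 ?_)
    filter_upwards [eventually_ge_atTop (1 : ℝ)] with T hT
    have hT0 : 0 ≤ T := by linarith
    rw [one_mul, Real.norm_eq_abs, Real.norm_eq_abs, abs_of_nonneg (Real.rpow_nonneg hT0 _),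
      abs_of_nonneg (Real.rpow_nonneg hT0 _)]
    apply Real.rpow_le_rpow_of_exponent_le hT
    have := le_max_left (n * η) 0
    linarith
  obtain ⟨E, hE, hup⟩ := upper_of_moment2 ha hw hc hσ hσr' hn (le_max_right (n * η) 0) hO'
  have hmax : max (n * η) 0 / n < growth2 κ J.card σ := by
    rw [div_lt_iff₀ hn0]
    refine max_lt ?_ (by positivity)
    rw [mul_comm]
    exact mul_lt_mul_of_pos_right hη hn0
  have hmax0 : 0 ≤ max (n * η) 0 / n := div_nonneg (le_max_right _ _) hn0.le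
  refine contra2 ha hw hκ hL hE ?_ (by linarith) ?_ hup
  · linarith
  · unfold growth2 at hmax
    rw [lt_div_iff₀ hκ1] at hmax
    nlinarith

/-- from a bound for the values to a bound for the moments -/
lemma moment_of_pointwise {Z : ℂ → ℂ} (hZ : ∀ s ∈ Om r, DifferentiableAt ℂ Z s) {σ η : ℝ}
    (hη : 0 ≤ η) (hO : (fun t : ℝ => Z ((σ : ℂ) + (t : ℂ) * I)) =O[atTop] fun t : ℝ => t ^ η) :
    (fun T : ℝ => ∫ t in (1 : ℝ)..T, ‖Z ((σ : ℂ) + (t : ℂ) * I)‖ ^ 1)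
      =O[atTop] fun T : ℝ => T ^ (1 + η) := by
  obtain ⟨C, hC⟩ := hO.bound
  obtain ⟨T0, hT0⟩ := eventually_atTop.1 hC
  set T1 := max T0 1 with hT1
  have hZc : ContinuousOn (fun t : ℝ => ‖Z ((σ : ℂ) + (t : ℂ) * I)‖ ^ 1) (Ici 1) := by
    intro t ht
    have h1 : DifferentiableAt ℂ Z ((σ : ℂ) + (t : ℂ) * I) :=
      hZ _ (mem_Om_of_im (by simpa using ht))
    have h2 : ContinuousAt (fun t : ℝ => Z ((σ : ℂ) + (t : ℂ) * I)) t :=
      ContinuousAt.comp (g := Z) (f := fun t : ℝ => (σ : ℂ) + (t : ℂ) * I) h1.continuousAt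
        (by fun_prop)
    exact (h2.norm.pow 1).continuousWithinAt
  have hint : ∀ x y : ℝ, 1 ≤ x → x ≤ y →
      IntervalIntegrable (fun t : ℝ => ‖Z ((σ : ℂ) + (t : ℂ) * I)‖ ^ 1) volume x y := by
    intro x y hx hxy
    apply ContinuousOn.intervalIntegrable
    rw [Set.uIcc_of_le hxy]
    exact hZc.mono (fun t ht => hx.trans ht.1)
  set J : ℝ := ∫ t in (1 : ℝ)..T1, ‖Z ((σ : ℂ) + (t : ℂ) * I)‖ ^ 1 with hJ
  have hT11 : (1 : ℝ) ≤ T1 := le_max_right _ _
  have hJ0 : 0 ≤ J := intervalIntegral.integral_nonneg hT11 (fun t _ => by positivity)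
  refine IsBigO.of_bound (J + |C|) ?_
  filter_upwards [eventually_ge_atTop T1] with T hT
  have hTT : (1 : ℝ) ≤ T := hT11.trans hT
  have hT00 : 0 < T := by linarith
  rw [← intervalIntegral.integral_add_adjacent_intervals (hint 1 T1 le_rfl hT11) (hint T1 T hT11 hT)]
  have h1 : ∫ t in T1..T, ‖Z ((σ : ℂ) + (t : ℂ) * I)‖ ^ 1 ≤ |C| * T ^ (1 + η) := by
    have h2 : ∫ t in T1..T, ‖Z ((σ : ℂ) + (t : ℂ) * I)‖ ^ 1 ≤ ∫ _t in T1..T, |C| * T ^ η := by
      apply intervalIntegral.integral_mono_on hT (hint T1 T hT11 hT) (by simp)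
      intro t ht
      have ht1 : 1 ≤ t := hT11.trans ht.1
      have ht0 : 0 < t := by linarith
      have h3 := hT0 t ((le_max_left _ _).trans ht.1)
      rw [Real.norm_eq_abs, abs_of_nonneg (Real.rpow_nonneg ht0.le _)] at h3
      rw [pow_one]
      calc ‖Z ((σ : ℂ) + (t : ℂ) * I)‖ ≤ C * t ^ η := h3
        _ ≤ |C| * t ^ η := by
            gcongr
            exact le_abs_self C
        _ ≤ |C| * T ^ η := by
            gcongr
            exact ht.2
    refine h2.trans ?_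
    rw [intervalIntegral.integral_const, smul_eq_mul, Real.rpow_add hT00, Real.rpow_one]
    have h4 : T - T1 ≤ T := by linarith
    have h5 : 0 ≤ |C| * T ^ η := by positivity
    calc (T - T1) * (|C| * T ^ η) ≤ T * (|C| * T ^ η) := by gcongr
      _ = _ := by ring
  have h6 : 0 ≤ ∫ t in T1..T, ‖Z ((σ : ℂ) + (t : ℂ) * I)‖ ^ 1 :=
    intervalIntegral.integral_nonneg hT (fun t _ => by positivity)
  rw [Real.norm_eq_abs, Real.norm_eq_abs, abs_of_nonneg (by linarith),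
    abs_of_nonneg (Real.rpow_nonneg hT00.le _)]
  have h7 : 1 ≤ T ^ (1 + η) := Real.one_le_rpow hTT (by linarith)
  calc _ ≤ J * T ^ (1 + η) + |C| * T ^ (1 + η) := by
        refine add_le_add ?_ h1
        exact le_mul_of_one_le_right hJ0 h7
    _ = _ := by ring

/-- the values are large -/
theorem not_pointwise2 (ha : 0 < a) (hw : ∀ j, 0 < w j) {J : Finset (Fin r)} {κ : ℝ} (hκ : 0 < κ)
    (hL : SimApprox w J κ) {Z : ℂ → ℂ}
    (hZ : ∀ s ∈ Om r, DifferentiableAt ℂ Z s)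
    (hs : ∀ s : ℂ, (r : ℝ) < s.re → Z s = ∑' m : Fin r → ℕ, ((lam a w m : ℝ) : ℂ) ^ (-s))
    {σ η : ℝ} (hσ : 1 / 2 < σ) (hσr : 0 < growth2 κ J.card σ) (hη : η < growth2 κ J.card σ) :
    ¬ (fun t : ℝ => Z ((σ : ℂ) + (t : ℂ) * I)) =O[atTop] fun t : ℝ => t ^ η := by
  intro hO
  have hO2 : (fun t : ℝ => Z ((σ : ℂ) + (t : ℂ) * I)) =O[atTop] fun t : ℝ => t ^ (max η 0) := by
    refine hO.trans (IsBigO.of_bound 1 ?_)
    filter_upwards [eventually_ge_atTop (1 : ℝ)] with t ht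
    have ht0 : 0 ≤ t := by linarith
    rw [one_mul, Real.norm_eq_abs, Real.norm_eq_abs, abs_of_nonneg (Real.rpow_nonneg ht0 _),
      abs_of_nonneg (Real.rpow_nonneg ht0 _)]
    exact Real.rpow_le_rpow_of_exponent_le ht (le_max_left _ _)
  refine not_moment2 ha hw hκ hL hZ hs (n := 1) le_rfl hσ hσr (η := max η 0) (max_lt hη hσr) ?_
  have := moment_of_pointwise hZ (le_max_right η 0) hO2
  simpa using this

end Pool.Agent.H312.Barnes
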