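import Pool.Graph.R_seed8.Y616.BM.Pt3
import Pool.Agent.H312.Barnes.Exp

set_option autoImplicit false

/-!
# Large values
-/

namespace Pool.Agent.H312.Barnes

open Finset Filter Topology MeasureTheory Complex Set Asymptotics
open Pool.Agent.H131R5.BZ Pool.Agent.Y930.Bz Pool.Agent.Y616.BM

variable {r : ℕ} {a : ℝ} {w : Fin r → ℝ} {c : ℕ → ℂ}

lemma Dio.left {s θ δ : ℝ} (h : Dio w s θ) (hδ : 0 ≤ δ) : Dio w (s - δ) (θ + δ) := by
  obtain ⟨c, hc, hD⟩ := h
  refine ⟨c, hc, fun ρ y hρ hy hy1 => ?_⟩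
  refine le_trans ?_ (hD ρ y hρ hy hy1)
  have hρ0 : 0 < ρ := by linarith
  have h1 : s - δ + (θ + δ) = s + θ := by ring
  have h2 : ρ ^ (-(θ + δ)) ≤ ρ ^ (-θ) := Real.rpow_le_rpow_of_exponent_le hρ (by linarith)
  rw [h1]
  gcongr

/-- few large values -/
def Rare (Z : ℂ → ℂ) (m : ℝ) : Prop :=
  ∀ σ₁ η ε : ℝ, 0 ≤ η → 0 < ε → ∃ C : ℝ, ∀ T : ℝ, 2 ≤ T →
    volume {t : ℝ | T ≤ t ∧ t ≤ 2 * T ∧ ∃ σ : ℝ, m ≤ σ ∧ σ ≤ σ₁ ∧
      t ^ η < ‖Z ((σ : ℂ) + t * I)‖} ≤ ENNReal.ofReal (C * T ^ (1 - 2 * η + ε))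

theorem rare_of_dio (hr : 0 < r) (ha : 0 < a) (hw : ∀ j, 0 < w j) {Z : ℂ → ℂ}
    (hZ : ∀ s ∈ Om r, DifferentiableAt ℂ Z s)
    (hs : ∀ s : ℂ, (r : ℝ) < s.re → Z s = ∑' m : Fin r → ℕ, ((lam a w m : ℝ) : ℂ) ^ (-s))
    {m : ℝ} (hm : 1 / 2 < m) (h : ∀ ε : ℝ, 0 < ε → Dio w (2 * m) (1 + ε)) : Rare Z m := by
  intro σ₁ η ε hη hε
  obtain ⟨c, hc⟩ := exists_taylor a hw
  set κ : ℝ := min (min (ε / 6) (1 / 2)) ((m - 1 / 2) / 2) with hκ
  have hκ0 : 0 < κ := lt_min (lt_min (by positivity) (by norm_num)) (by linarith)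
  have hκ1 : κ ≤ 1 := (min_le_left _ _).trans ((min_le_right _ _).trans (by norm_num))
  have hκε : κ ≤ ε / 6 := (min_le_left _ _).trans (min_le_left _ _)
  have hκm : κ ≤ (m - 1 / 2) / 2 := min_le_right _ _
  have h1 : Dio w (2 * (m - κ)) (1 + ε / 3 + 2 * κ) := by
    have := (h (ε / 3) (by positivity)).left (δ := 2 * κ) (by positivity)
    have e : 2 * (m - κ) = 2 * m - 2 * κ := by ring
    rw [e]
    exact this
  obtain ⟨C₀, hC₀, h2⟩ := ms_upper hr ha hw hc (σ := m - κ) (by linarith) (by linarith) h1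
    (ε := ε / 3) (by positivity)
  obtain ⟨C, hC, h3⟩ := bad_measure (σ₁ := σ₁) ha hw hc (α := m - κ)
    (by linarith) hκ0 hκ1 (τ := 1 + ε / 3 + 2 * κ + ε / 3) (by linarith) hC₀ h2 hη
  refine ⟨C, fun T hT => ?_⟩
  have hT1 : 1 ≤ T := by linarith
  calc _ ≤ volume {t : ℝ | t ∈ Set.Icc T (2 * T) ∧ ∃ σ : ℝ, (m - κ) + κ ≤ σ ∧ σ ≤ σ₁ ∧
        t ^ η < ‖FF a w c ((σ : ℂ) + t * Complex.I)‖} := by
        refine measure_mono ?_
        rintro t ⟨ht1, ht2, σ, hσ, hσ1, hbig⟩
        refine ⟨⟨ht1, ht2⟩, σ, by linarith, hσ1, ?_⟩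
        rw [← eq_FF ha hw hc hZ hs _ (mem_Om_of_im (by
          have : 1 ≤ t := hT1.trans ht1
          simpa using this))]
        exact hbig
    _ ≤ ENNReal.ofReal (C * T ^ (1 + ε / 3 + 2 * κ + ε / 3 - 2 * η)) := h3 T hT
    _ ≤ _ := by
        apply ENNReal.ofReal_le_ofReal
        refine mul_le_mul_of_nonneg_left ?_ hC
        exact Real.rpow_le_rpow_of_exponent_le hT1 (by linarith)

/-- polynomial growth -/
lemma poly_growth (hr : 0 < r) (ha : 0 < a) (hw : ∀ j, 0 < w j) (hc : Tay a w c) {m : ℝ}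
    (hm : 1 / 2 < m) : ∃ C : ℝ, 0 ≤ C ∧ ∀ t : ℝ, 1 ≤ t →
      ‖FF a w c ((m : ℂ) + t * I)‖ ≤ C * t ^ ((2 * (r : ℝ) + 1) / 2) := by
  set κ : ℝ := min 1 ((m - 1 / 2) / 2) with hκ
  have hκ0 : 0 < κ := lt_min (by norm_num) (by linarith)
  have hκ1 : κ ≤ 1 := min_le_left _ _
  have hκm : κ ≤ (m - 1 / 2) / 2 := min_le_right _ _
  have hr1 : (1 : ℝ) ≤ r := by exact_mod_cast hr
  have h1 : Dio w (2 * (m - κ)) (2 * r) := dio_trivial w (by linarith) (by linarith)
  obtain ⟨C₀, hC₀, h2⟩ := ms_upper hr ha hw hc (σ := m - κ) (by linarith) (by linarith) h1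
    (ε := 1) one_pos
  obtain ⟨C, hC, h3⟩ := pt_bound (σ₁ := m) ha hw hc (α := m - κ) (by linarith) hκ0 hκ1
    (τ := 2 * r + 1) (by linarith) hC₀ h2
  exact ⟨C, hC, fun t ht => h3 m t (by linarith) le_rfl ht⟩

/-- from the lower integral to the integral -/
lemma int_of_lint (ha : 0 < a) (hw : ∀ j, 0 < w j) (hc : Tay a w c) {Z : ℂ → ℂ}
    (hZ : ∀ s ∈ Om r, DifferentiableAt ℂ Z s)
    (hs : ∀ s : ℂ, (r : ℝ) < s.re → Z s = ∑' m : Fin r → ℕ, ((lam a w m : ℝ) : ℂ) ^ (-s))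
    {σ T B : ℝ} (hT : 1 ≤ T) (hB : 0 ≤ B)
    (hms : ∫⁻ t in Icc 1 T, ‖FF a w c ((σ : ℂ) + t * I)‖ₑ ^ 2 ≤ ENNReal.ofReal B) :
    ∫ t in (1 : ℝ)..T, ‖Z ((σ : ℂ) + (t : ℂ) * I)‖ ^ 2 ≤ B := by
  have h1 : ∫ t in (1 : ℝ)..T, ‖Z ((σ : ℂ) + (t : ℂ) * I)‖ ^ 2 =
      ∫ t in Ioc 1 T, ‖Z ((σ : ℂ) + (t : ℂ) * I)‖ ^ 2 := intervalIntegral.integral_of_le hT
  rw [h1, integral_eq_lintegral_of_nonneg_ae (ae_of_all _ fun t => by positivity)]
  · refine ENNReal.toReal_le_of_le_ofReal hB ?_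
    calc ∫⁻ t in Ioc 1 T, ENNReal.ofReal (‖Z ((σ : ℂ) + (t : ℂ) * I)‖ ^ 2) =
          ∫⁻ t in Ioc 1 T, ‖FF a w c ((σ : ℂ) + t * I)‖ₑ ^ 2 := by
          refine setLIntegral_congr_fun measurableSet_Ioc (fun t ht => ?_)
          show ENNReal.ofReal (‖Z ((σ : ℂ) + (t : ℂ) * I)‖ ^ 2) = _
          rw [eq_FF ha hw hc hZ hs _ (mem_Om_of_im (by simpa using ht.1.le)),
            ENNReal.ofReal_pow (norm_nonneg _), ofReal_norm]
      _ ≤ ∫⁻ t in Icc 1 T, ‖FF a w c ((σ : ℂ) + t * I)‖ₑ ^ 2 :=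
          lintegral_mono_set Ioc_subset_Icc_self
      _ ≤ _ := hms
  · have h2 : ContinuousOn (fun t : ℝ => ‖Z ((σ : ℂ) + (t : ℂ) * I)‖ ^ 2) (Ioc 1 T) :=
      ((line_cont hZ σ).norm.pow 2).mono fun t ht => ht.1.le
    exact h2.aestronglyMeasurable measurableSet_Ioc

theorem ms_of_rare (hr : 0 < r) (ha : 0 < a) (hw : ∀ j, 0 < w j) {Z : ℂ → ℂ}
    (hZ : ∀ s ∈ Om r, DifferentiableAt ℂ Z s)
    (hs : ∀ s : ℂ, (r : ℝ) < s.re → Z s = ∑' m : Fin r → ℕ, ((lam a w m : ℝ) : ℂ) ^ (-s))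
    {m : ℝ} (hm : 1 / 2 < m) (h : Rare Z m) {ε : ℝ} (hε : 0 < ε) :
    ∃ C : ℝ, 0 ≤ C ∧ ∀ T : ℝ, 1 ≤ T → ∫ t in (1 : ℝ)..T, ‖Z ((m : ℂ) + (t : ℂ) * I)‖ ^ 2 ≤
      C * T ^ (1 + ε) := by
  classical
  obtain ⟨c, hc⟩ := exists_taylor a hw
  obtain ⟨C₀, hC₀, hgr⟩ := poly_growth hr ha hw hc hm
  obtain ⟨C₁, hC₁, hms1⟩ := ms_upper hr ha hw hc (σ := m) hm.le
    (θ := 2 * r + 1) (by have : (0 : ℝ) ≤ r := Nat.cast_nonneg r
                         linarith)
    (dio_trivial w (by positivity) (by linarith)) (ε := 1) one_pos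
  set f : ℝ → ℝ := fun t => ‖FF a w c ((m : ℂ) + t * I)‖ with hf
  set δ : ℝ := ε / 3 with hδ
  have hδ0 : 0 < δ := by positivity
  obtain ⟨N, hN⟩ := exists_nat_ge (((2 * (r : ℝ) + 1) / 2) / δ)
  have hNδ : (2 * (r : ℝ) + 1) / 2 ≤ N * δ := by rwa [div_le_iff₀ hδ0] at hN
  have hN0 : 0 < N := by
    rcases Nat.eq_zero_or_pos N with h0 | h0
    · exfalso
      rw [h0] at hNδ
      have : (0 : ℝ) ≤ r := Nat.cast_nonneg r
      norm_num at hNδ
      linarith
    · exact h0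
  choose D hD using fun k : ℕ => h m (((k : ℝ) + 1) * δ) δ (by positivity) hδ0
  set B : ℕ → ℝ := fun k => (1 + C₀ ^ 2) * 2 ^ (2 * ((k : ℝ) + 2) * δ) * |D k| with hB
  set CT : ℝ := 2 ^ (2 * δ) + ∑ k ∈ Finset.range N, B k with hCT
  have hB0 : ∀ k, 0 ≤ B k := fun k => by positivity
  have hCT0 : 0 ≤ CT := by
    have : 0 ≤ ∑ k ∈ Finset.range N, B k := Finset.sum_nonneg fun k _ => hB0 k
    positivity
  have hmain : ∀ T : ℝ, 2 ≤ T → ∫⁻ t in Icc T (2 * T), ‖FF a w c ((m : ℂ) + t * I)‖ₑ ^ 2 ≤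
      ENNReal.ofReal (CT * T ^ (1 + ε)) := by
    intro T hT
    have hT0 : 0 < T := by linarith
    have hT1 : 1 ≤ T := by linarith
    set S : ℕ → Set ℝ := fun k => {t : ℝ | T ≤ t ∧ t ≤ 2 * T ∧ ∃ σ : ℝ, m ≤ σ ∧ σ ≤ m ∧
      t ^ (((k : ℝ) + 1) * δ) < ‖Z ((σ : ℂ) + t * I)‖} with hS
    set S' : ℕ → Set ℝ := fun k => toMeasurable volume (S k) with hS'
    have hSm : ∀ k, MeasurableSet (S' k) := fun k => measurableSet_toMeasurable _ _
    have hSv : ∀ k, volume (S' k) ≤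
        ENNReal.ofReal (D k * T ^ (1 - 2 * (((k : ℝ) + 1) * δ) + δ)) := fun k => by
      rw [hS', measure_toMeasurable]
      exact hD k T hT
    set G : ℕ → ℝ := fun k => (1 + C₀ ^ 2) * (2 * T) ^ (2 * ((k : ℝ) + 2) * δ) with hG
    have hG0 : ∀ k, 0 ≤ G k := fun k => by positivity
    have hpt : ∀ t ∈ Icc T (2 * T), ‖FF a w c ((m : ℂ) + t * I)‖ₑ ^ 2 ≤
        ENNReal.ofReal ((2 * T) ^ (2 * δ)) +
          ∑ k ∈ Finset.range N, (S' k).indicator (fun _ => ENNReal.ofReal (G k)) t := by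
      intro t ht
      have ht1 : 1 ≤ t := hT1.trans ht.1
      have ht0 : 0 < t := by linarith
      have hft : ‖FF a w c ((m : ℂ) + t * I)‖ₑ ^ 2 = ENNReal.ofReal (f t ^ 2) := by
        rw [ENNReal.ofReal_pow (norm_nonneg _), ofReal_norm]
      rw [hft]
      have hf0 : 0 ≤ f t := norm_nonneg _
      set P : ℕ → Prop := fun k => t ^ ((k : ℝ) * δ) < f t with hP
      set k₀ := Nat.findGreatest P N with hk₀
      have hk₀N : k₀ ≤ N := Nat.findGreatest_le N
      rcases Nat.eq_zero_or_pos k₀ with h0 | hpos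
      · have h1 : ¬ P 1 := Nat.findGreatest_is_greatest (by rw [← hk₀, h0]; norm_num) hN0
        rw [hP] at h1
        simp only [Nat.cast_one, one_mul, not_lt] at h1
        have h2 : f t ^ 2 ≤ (2 * T) ^ (2 * δ) := by
          calc f t ^ 2 ≤ (t ^ δ) ^ 2 := pow_le_pow_left₀ hf0 h1 2
            _ = t ^ (2 * δ) := by
                rw [← Real.rpow_natCast, ← Real.rpow_mul ht0.le]
                congr 1
                push_cast
                ring
            _ ≤ (2 * T) ^ (2 * δ) := Real.rpow_le_rpow ht0.le ht.2 (by positivity)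
        exact (ENNReal.ofReal_le_ofReal h2).trans le_self_add
      · have hPk : P k₀ := Nat.findGreatest_of_ne_zero hk₀.symm (by omega)
        obtain ⟨k, hk⟩ : ∃ k, k₀ = k + 1 := ⟨k₀ - 1, by omega⟩
        have hkN : k ∈ Finset.range N := by rw [Finset.mem_range]; omega
        have htS : t ∈ S' k := by
          refine subset_toMeasurable _ _ ?_
          refine ⟨ht.1, ht.2, m, le_rfl, le_rfl, ?_⟩
          rw [eq_FF ha hw hc hZ hs _ (mem_Om_of_im (by simpa using ht1))]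
          rw [hP, hk] at hPk
          push_cast at hPk
          exact hPk
        have h2 : f t ^ 2 ≤ G k := by
          rcases Nat.lt_or_ge k₀ N with hlt | hge
          · have h3 : ¬ P (k₀ + 1) := Nat.findGreatest_is_greatest (Nat.lt_succ_self _) hlt
            rw [hP, hk] at h3
            simp only [not_lt] at h3
            push_cast at h3
            calc f t ^ 2 ≤ (t ^ (((k : ℝ) + 1 + 1) * δ)) ^ 2 := pow_le_pow_left₀ hf0 h3 2
              _ = t ^ (2 * ((k : ℝ) + 2) * δ) := by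
                  rw [← Real.rpow_natCast, ← Real.rpow_mul ht0.le]
                  congr 1
                  push_cast
                  ring
              _ ≤ (2 * T) ^ (2 * ((k : ℝ) + 2) * δ) :=
                  Real.rpow_le_rpow ht0.le ht.2 (by positivity)
              _ = 1 * (2 * T) ^ (2 * ((k : ℝ) + 2) * δ) := (one_mul _).symm
              _ ≤ _ := by
                  show _ ≤ (1 + C₀ ^ 2) * (2 * T) ^ (2 * ((k : ℝ) + 2) * δ)
                  have : 0 ≤ C₀ ^ 2 := by positivity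
                  gcongr
                  linarith
          · have hkN' : (N : ℝ) = k + 1 := by
              have : N = k + 1 := by omega
              rw [this]; push_cast; rfl
            have h3 : f t ≤ C₀ * t ^ (((k : ℝ) + 2) * δ) := by
              refine (hgr t ht1).trans ?_
              gcongr
              rw [hkN'] at hNδ
              nlinarith
            calc f t ^ 2 ≤ (C₀ * t ^ (((k : ℝ) + 2) * δ)) ^ 2 := pow_le_pow_left₀ hf0 h3 2
              _ = C₀ ^ 2 * t ^ (2 * ((k : ℝ) + 2) * δ) := by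
                  rw [mul_pow]
                  congr 1
                  rw [← Real.rpow_natCast, ← Real.rpow_mul ht0.le]
                  congr 1
                  push_cast
                  ring
              _ ≤ C₀ ^ 2 * (2 * T) ^ (2 * ((k : ℝ) + 2) * δ) := by
                  have := Real.rpow_le_rpow ht0.le ht.2 (by positivity : 0 ≤ 2 * ((k : ℝ) + 2) * δ)
                  gcongr
              _ ≤ _ := by
                  show _ ≤ (1 + C₀ ^ 2) * (2 * T) ^ (2 * ((k : ℝ) + 2) * δ)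
                  have : 0 ≤ C₀ ^ 2 := by positivity
                  gcongr
                  linarith
        have h3 : ENNReal.ofReal (f t ^ 2) ≤
            ∑ k ∈ Finset.range N, (S' k).indicator (fun _ => ENNReal.ofReal (G k)) t := by
          refine le_trans ?_ (Finset.single_le_sum (f := fun k : ℕ =>
            (S' k).indicator (fun _ => ENNReal.ofReal (G k)) t) (fun _ _ => zero_le) hkN)
          show _ ≤ (S' k).indicator (fun _ => ENNReal.ofReal (G k)) t
          rw [Set.indicator_of_mem htS]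
          exact ENNReal.ofReal_le_ofReal h2
        exact h3.trans le_add_self
    calc _ ≤ ∫⁻ t in Icc T (2 * T), (ENNReal.ofReal ((2 * T) ^ (2 * δ)) +
          ∑ k ∈ Finset.range N, (S' k).indicator (fun _ => ENNReal.ofReal (G k)) t) :=
          setLIntegral_mono' measurableSet_Icc hpt
      _ = ENNReal.ofReal ((2 * T) ^ (2 * δ)) * ENNReal.ofReal T +
          ∑ k ∈ Finset.range N, ∫⁻ t in Icc T (2 * T),
            (S' k).indicator (fun _ => ENNReal.ofReal (G k)) t := by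
          rw [lintegral_add_left measurable_const, lintegral_const, Measure.restrict_apply_univ,
            Real.volume_Icc, lintegral_finsetSum]
          · congr 3
            ring
          · intro k _
            exact measurable_const.indicator (hSm k)
      _ ≤ ENNReal.ofReal ((2 * T) ^ (2 * δ)) * ENNReal.ofReal T +
          ∑ k ∈ Finset.range N, ENNReal.ofReal (B k * T ^ (1 + ε)) := by
          gcongr with k hk
          rw [lintegral_indicator_const (hSm k)]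
          calc ENNReal.ofReal (G k) * (volume.restrict (Icc T (2 * T))) (S' k) ≤
                ENNReal.ofReal (G k) *
                  ENNReal.ofReal (|D k| * T ^ (1 - 2 * (((k : ℝ) + 1) * δ) + δ)) := by
                refine mul_le_mul_right ?_ _
                refine (Measure.restrict_apply_le _ _).trans ((hSv k).trans ?_)
                apply ENNReal.ofReal_le_ofReal
                gcongr
                exact le_abs_self _
            _ = ENNReal.ofReal (G k * (|D k| * T ^ (1 - 2 * (((k : ℝ) + 1) * δ) + δ))) := by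
                rw [ENNReal.ofReal_mul (hG0 k)]
            _ ≤ _ := by
                apply ENNReal.ofReal_le_ofReal
                have e1 : (2 * T) ^ (2 * ((k : ℝ) + 2) * δ) =
                    2 ^ (2 * ((k : ℝ) + 2) * δ) * T ^ (2 * ((k : ℝ) + 2) * δ) :=
                  Real.mul_rpow (by norm_num) hT0.le
                have e2 : T ^ (2 * ((k : ℝ) + 2) * δ) * T ^ (1 - 2 * (((k : ℝ) + 1) * δ) + δ) =
                    T ^ (1 + ε) := by
                  rw [← Real.rpow_add hT0]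
                  congr 1
                  rw [hδ]
                  ring
                rw [hG, hB]
                simp only
                rw [e1, ← e2]
                apply le_of_eq
                ring
      _ = ENNReal.ofReal ((2 * T) ^ (2 * δ) * T + (∑ k ∈ Finset.range N, B k) * T ^ (1 + ε)) := by
          rw [← ENNReal.ofReal_mul (by positivity), ← ENNReal.ofReal_sum_of_nonneg,
            ← ENNReal.ofReal_add (by positivity), Finset.sum_mul]
          · exact Finset.sum_nonneg fun k _ => mul_nonneg (hB0 k) (by positivity)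
          · exact fun k _ => mul_nonneg (hB0 k) (by positivity)
      _ ≤ _ := by
          apply ENNReal.ofReal_le_ofReal
          have e1 : (2 * T) ^ (2 * δ) * T = 2 ^ (2 * δ) * T ^ (2 * δ + 1) := by
            rw [Real.mul_rpow (by norm_num) hT0.le, Real.rpow_add_one hT0.ne']
            ring
          have e2 : T ^ (2 * δ + 1) ≤ T ^ (1 + ε) :=
            Real.rpow_le_rpow_of_exponent_le hT1 (by rw [hδ]; linarith)
          rw [e1, hCT, add_mul]
          gcongr
  set E : ℝ := C₁ * 2 ^ (2 * (r : ℝ) + 1 + 1) with hE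
  have hE0 : 0 ≤ E := by positivity
  have hpiece : ∀ n : ℕ, ∫⁻ t in Icc ((2 : ℝ) ^ n) (2 * 2 ^ n),
      ‖FF a w c ((m : ℂ) + t * I)‖ₑ ^ 2 ≤
      ENNReal.ofReal ((CT + E) * ((2 : ℝ) ^ n) ^ (1 + ε)) := by
    intro n
    rcases Nat.eq_zero_or_pos n with h0 | h0
    · subst h0
      rw [pow_zero, mul_one, Real.one_rpow, mul_one]
      refine (hms1 2 (by norm_num)).trans (ENNReal.ofReal_le_ofReal ?_)
      linarith
    · have h2 : (2 : ℝ) ≤ 2 ^ n := by
        calc (2 : ℝ) = 2 ^ 1 := by norm_num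
          _ ≤ 2 ^ n := pow_le_pow_right₀ (by norm_num) h0
      refine (hmain _ h2).trans (ENNReal.ofReal_le_ofReal ?_)
      have : 0 ≤ ((2 : ℝ) ^ n) ^ (1 + ε) := by positivity
      nlinarith
  have hdy := dyadic (fun t : ℝ => ‖FF a w c ((m : ℂ) + t * I)‖ₑ ^ 2)
    (C := CT + E) (τ := 1 + ε) (by positivity) (by linarith) hpiece
  refine ⟨(CT + E) * 2 ^ (1 + ε), by positivity, fun T hT => ?_⟩
  obtain ⟨n, hn1, hn2⟩ := exists_nat_pow_near hT (one_lt_two)
  refine int_of_lint ha hw hc hZ hs hT (by positivity) ?_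
  calc _ ≤ ∫⁻ t in Icc 1 ((2 : ℝ) ^ (n + 1)), ‖FF a w c ((m : ℂ) + t * I)‖ₑ ^ 2 :=
        lintegral_mono_set (Icc_subset_Icc_right hn2.le)
    _ ≤ _ := hdy (n + 1)
    _ ≤ _ := by
        apply ENNReal.ofReal_le_ofReal
        have h1 : ((2 : ℝ) ^ (n + 1)) ^ (1 + ε) ≤ (T * 2) ^ (1 + ε) := by
          apply Real.rpow_le_rpow (by positivity) _ (by linarith)
          rw [pow_succ]
          linarith
        rw [Real.mul_rpow (by linarith) (by norm_num)] at h1
        calc _ ≤ (CT + E) * (T ^ (1 + ε) * 2 ^ (1 + ε)) := by gcongr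
          _ = _ := by ring

end Pool.Agent.H312.Barnes
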