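import Pool.Agent.H312.Barnes.Jb
import Pool.Agent.H312.Barnes.Low

set_option autoImplicit false

/-!
# The mean square and the Diophantine condition
-/

namespace Pool.Agent.H312.Barnes

open Finset Filter Topology MeasureTheory Complex Set Asymptotics
open Pool.Agent.H131R5.BZ Pool.Agent.Y930.Bz Pool.Agent.Y616.BM

variable {r : ℕ} {a : ℝ} {w : Fin r → ℝ} {c : ℕ → ℂ}

/-- the upper bound for the mean square -/
theorem ms_upper (hr : 0 < r) (ha : 0 < a) (hw : ∀ j, 0 < w j) (hc : Tay a w c) {σ θ : ℝ}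
    (hσ : 1 / 2 ≤ σ) (hθ : 1 ≤ θ) (h : Dio w (2 * σ) θ) {ε : ℝ} (hε : 0 < ε) :
    ∃ C : ℝ, 0 ≤ C ∧ ∀ T : ℝ, 1 ≤ T → ∫⁻ t in Icc 1 T, ‖FF a w c ((σ : ℂ) + t * I)‖ₑ ^ 2 ≤
      ENNReal.ofReal (C * T ^ (θ + ε)) := by
  obtain ⟨C₁, U, hC₁, hz⟩ := zone ha hw hc hσ
  obtain ⟨C₂, hC₂, hJ⟩ := JJ_le hr ha hw (by linarith : 0 < σ) hθ h (half_pos hε) U
  have hpiece : ∀ n : ℕ, ∫⁻ t in Icc ((2 : ℝ) ^ n) (2 * 2 ^ n),
      ‖FF a w c ((σ : ℂ) + t * I)‖ₑ ^ 2 ≤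
      ENNReal.ofReal ((C₁ + C₁ * C₂) * ((2 : ℝ) ^ n) ^ (θ + ε)) := by
    intro n
    set T : ℝ := (2 : ℝ) ^ n with hT
    have hT1 : 1 ≤ T := one_le_pow₀ (by norm_num)
    have hT0 : 0 < T := by positivity
    calc _ ≤ _ := hz T hT1
      _ ≤ ENNReal.ofReal (C₁ * T) + ENNReal.ofReal (C₁ * T ^ (1 - 2 * σ)) *
          ENNReal.ofReal (C₂ * T ^ (2 * σ + θ - 1 + 2 * (ε / 2))) := by
          gcongr
          exact hJ T hT1
      _ = ENNReal.ofReal (C₁ * T + C₁ * C₂ *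
          T ^ ((1 - 2 * σ) + (2 * σ + θ - 1 + 2 * (ε / 2)))) := by
          have e0 : T ^ ((1 - 2 * σ) + (2 * σ + θ - 1 + 2 * (ε / 2))) =
              T ^ (1 - 2 * σ) * T ^ (2 * σ + θ - 1 + 2 * (ε / 2)) := Real.rpow_add hT0 _ _
          rw [e0, ← ENNReal.ofReal_mul (by positivity),
            ← ENNReal.ofReal_add (by positivity) (by positivity)]
          congr 1
          ring
      _ ≤ _ := by
          apply ENNReal.ofReal_le_ofReal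
          have e1 : (1 - 2 * σ) + (2 * σ + θ - 1 + 2 * (ε / 2)) = θ + ε := by ring
          rw [e1]
          have h5 : T ≤ T ^ (θ + ε) := by
            calc T = T ^ (1 : ℝ) := (Real.rpow_one T).symm
              _ ≤ T ^ (θ + ε) := Real.rpow_le_rpow_of_exponent_le hT1 (by linarith)
          calc _ ≤ C₁ * T ^ (θ + ε) + C₁ * C₂ * T ^ (θ + ε) := by gcongr
            _ = _ := by ring
  have hdy := dyadic (fun t : ℝ => ‖FF a w c ((σ : ℂ) + t * I)‖ₑ ^ 2)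
    (C := C₁ + C₁ * C₂) (τ := θ + ε) (by positivity) (by linarith) hpiece
  refine ⟨(C₁ + C₁ * C₂) * 2 ^ (θ + ε), by positivity, fun T hT => ?_⟩
  obtain ⟨n, hn1, hn2⟩ := exists_nat_pow_near hT (one_lt_two)
  calc _ ≤ ∫⁻ t in Icc 1 ((2 : ℝ) ^ (n + 1)), ‖FF a w c ((σ : ℂ) + t * I)‖ₑ ^ 2 :=
        lintegral_mono_set (Icc_subset_Icc_right hn2.le)
    _ ≤ _ := hdy (n + 1)
    _ ≤ _ := by
        apply ENNReal.ofReal_le_ofReal
        have h1 : ((2 : ℝ) ^ (n + 1)) ^ (θ + ε) ≤ (T * 2) ^ (θ + ε) := by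
          apply Real.rpow_le_rpow (by positivity) _ (by linarith)
          rw [pow_succ]
          linarith
        rw [Real.mul_rpow (by linarith) (by norm_num)] at h1
        have h2 : 0 ≤ C₁ + C₁ * C₂ := by positivity
        calc _ ≤ (C₁ + C₁ * C₂) * (T ^ (θ + ε) * 2 ^ (θ + ε)) := by gcongr
          _ = _ := by ring

lemma line_cont {Z : ℂ → ℂ} (hZ : ∀ s ∈ Om r, DifferentiableAt ℂ Z s) (σ : ℝ) :
    ContinuousOn (fun t : ℝ => Z ((σ : ℂ) + (t : ℂ) * I)) (Ici 1) := by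
  intro t ht
  have h1 : DifferentiableAt ℂ Z ((σ : ℂ) + (t : ℂ) * I) :=
    hZ _ (mem_Om_of_im (by simpa using ht))
  exact (ContinuousAt.comp (g := Z) (f := fun t : ℝ => (σ : ℂ) + (t : ℂ) * I) h1.continuousAt
      (by fun_prop)).continuousWithinAt

/-- the second moment is small -/
theorem moment_two (hr : 0 < r) (ha : 0 < a) (hw : ∀ j, 0 < w j) {Z : ℂ → ℂ}
    (hZ : ∀ s ∈ Om r, DifferentiableAt ℂ Z s)
    (hs : ∀ s : ℂ, (r : ℝ) < s.re → Z s = ∑' m : Fin r → ℕ, ((lam a w m : ℝ) : ℂ) ^ (-s))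
    {σ θ : ℝ} (hσ : 1 / 2 ≤ σ) (hθ : 1 ≤ θ) (h : Dio w (2 * σ) θ) {ε : ℝ} (hε : 0 < ε) :
    ∃ C : ℝ, 0 ≤ C ∧ ∀ T : ℝ, 1 ≤ T → ∫ t in (1 : ℝ)..T, ‖Z ((σ : ℂ) + (t : ℂ) * I)‖ ^ 2 ≤
      C * T ^ (θ + ε) := by
  obtain ⟨c, hc⟩ := exists_taylor a hw
  obtain ⟨C, hC, hms⟩ := ms_upper hr ha hw hc hσ hθ h hε
  refine ⟨C, hC, fun T hT => ?_⟩
  have hT0 : 0 < T := by linarith
  have h1 : ∫ t in (1 : ℝ)..T, ‖Z ((σ : ℂ) + (t : ℂ) * I)‖ ^ 2 =
      ∫ t in Ioc 1 T, ‖Z ((σ : ℂ) + (t : ℂ) * I)‖ ^ 2 := intervalIntegral.integral_of_le hT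
  rw [h1, integral_eq_lintegral_of_nonneg_ae (ae_of_all _ fun t => by positivity)]
  · refine ENNReal.toReal_le_of_le_ofReal (by positivity) ?_
    calc ∫⁻ t in Ioc 1 T, ENNReal.ofReal (‖Z ((σ : ℂ) + (t : ℂ) * I)‖ ^ 2) =
          ∫⁻ t in Ioc 1 T, ‖FF a w c ((σ : ℂ) + t * I)‖ₑ ^ 2 := by
          refine setLIntegral_congr_fun measurableSet_Ioc (fun t ht => ?_)
          show ENNReal.ofReal (‖Z ((σ : ℂ) + (t : ℂ) * I)‖ ^ 2) = _
          rw [eq_FF ha hw hc hZ hs _ (mem_Om_of_im (by simpa using ht.1.le)),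
            ENNReal.ofReal_pow (norm_nonneg _), ofReal_norm]
      _ ≤ ∫⁻ t in Icc 1 T, ‖FF a w c ((σ : ℂ) + t * I)‖ₑ ^ 2 :=
          lintegral_mono_set Ioc_subset_Icc_self
      _ ≤ _ := hms T hT
  · have h2 : ContinuousOn (fun t : ℝ => ‖Z ((σ : ℂ) + (t : ℂ) * I)‖ ^ 2) (Ioc 1 T) :=
      ((line_cont hZ σ).norm.pow 2).mono fun t ht => ht.1.le
    exact h2.aestronglyMeasurable measurableSet_Ioc

/-- the first moment is small -/
theorem moment_one (hr : 0 < r) (ha : 0 < a) (hw : ∀ j, 0 < w j) {Z : ℂ → ℂ}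
    (hZ : ∀ s ∈ Om r, DifferentiableAt ℂ Z s)
    (hs : ∀ s : ℂ, (r : ℝ) < s.re → Z s = ∑' m : Fin r → ℕ, ((lam a w m : ℝ) : ℂ) ^ (-s))
    {σ θ : ℝ} (hσ : 1 / 2 ≤ σ) (hθ : 1 ≤ θ) (h : Dio w (2 * σ) θ) {ε : ℝ} (hε : 0 < ε) :
    ∃ C : ℝ, 0 ≤ C ∧ ∀ T : ℝ, 1 ≤ T → ∫ t in (1 : ℝ)..T, ‖Z ((σ : ℂ) + (t : ℂ) * I)‖ ^ 1 ≤
      C * T ^ ((1 + θ) / 2 + ε) := by
  obtain ⟨C, hC, hms⟩ := moment_two hr ha hw hZ hs hσ hθ h hε
  refine ⟨1 + C, by positivity, fun T hT => ?_⟩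
  have hT0 : 0 < T := by linarith
  set v : ℝ := (θ - 1 + ε) / 2 with hv
  set L : ℝ := T ^ v with hL
  have hL0 : 0 < L := by positivity
  have hsub : Set.uIcc 1 T ⊆ Ici (1 : ℝ) := by
    rw [Set.uIcc_of_le hT]
    exact fun t ht => ht.1
  have hc1 : ContinuousOn (fun t : ℝ => ‖Z ((σ : ℂ) + (t : ℂ) * I)‖ ^ 1) (Set.uIcc 1 T) :=
    ((line_cont hZ σ).norm.pow 1).mono hsub
  have hc2 : ContinuousOn (fun t : ℝ => ‖Z ((σ : ℂ) + (t : ℂ) * I)‖ ^ 2) (Set.uIcc 1 T) :=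
    ((line_cont hZ σ).norm.pow 2).mono hsub
  calc ∫ t in (1 : ℝ)..T, ‖Z ((σ : ℂ) + (t : ℂ) * I)‖ ^ 1 ≤
      ∫ t in (1 : ℝ)..T, (L + L⁻¹ * ‖Z ((σ : ℂ) + (t : ℂ) * I)‖ ^ 2) := by
        apply intervalIntegral.integral_mono_on hT hc1.intervalIntegrable
        · exact (continuousOn_const.add (continuousOn_const.mul hc2)).intervalIntegrable
        · intro t _
          rw [pow_one]
          set x := ‖Z ((σ : ℂ) + (t : ℂ) * I)‖
          have hx : 0 ≤ x := norm_nonneg _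
          rw [← mul_le_mul_iff_right₀ hL0]
          have e1 : L * (L + L⁻¹ * x ^ 2) = L ^ 2 + x ^ 2 := by
            field_simp
          rw [e1]
          nlinarith [sq_nonneg (L - x)]
    _ = (T - 1) * L + L⁻¹ * ∫ t in (1 : ℝ)..T, ‖Z ((σ : ℂ) + (t : ℂ) * I)‖ ^ 2 := by
        rw [intervalIntegral.integral_add (by simp) (hc2.intervalIntegrable.const_mul _),
          intervalIntegral.integral_const_mul, intervalIntegral.integral_const, smul_eq_mul]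
    _ ≤ T * L + L⁻¹ * (C * T ^ (θ + ε)) := by
        have := hms T hT
        gcongr
        linarith
    _ = T ^ (1 + v) + C * T ^ (θ + ε - v) := by
        have e1 : T ^ (1 + v) = T * T ^ v := by rw [Real.rpow_add hT0, Real.rpow_one]
        have e2 : T ^ (θ + ε - v) = T ^ (θ + ε) / T ^ v := Real.rpow_sub hT0 _ _
        rw [e1, e2, hL]
        ring
    _ ≤ T ^ ((1 + θ) / 2 + ε) + C * T ^ ((1 + θ) / 2 + ε) := by
        have h1 : T ^ (1 + v) ≤ T ^ ((1 + θ) / 2 + ε) :=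
          Real.rpow_le_rpow_of_exponent_le hT (by rw [hv]; linarith)
        have h2 : T ^ (θ + ε - v) ≤ T ^ ((1 + θ) / 2 + ε) :=
          Real.rpow_le_rpow_of_exponent_le hT (by rw [hv]; linarith)
        gcongr
    _ = _ := by ring

lemma dio_trivial (w : Fin r → ℝ) {s θ : ℝ} (hθ : 0 ≤ θ) (hs : 2 * (r : ℝ) ≤ s + θ) :
    Dio w s θ := by
  refine ⟨1, one_pos, fun ρ y hρ hy hy1 => ?_⟩
  have h1 : y ^ (s + θ) ≤ y ^ (2 * (r : ℝ)) :=
    Real.rpow_le_rpow_of_exponent_ge hy hy1 hs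
  have h2 : ρ ^ (-θ) ≤ 1 := Real.rpow_le_one_of_one_le_of_nonpos hρ (by linarith)
  have h3 : y ^ (2 * (r : ℝ)) = ∏ _j : Fin r, y ^ 2 := by
    rw [Finset.prod_const, Finset.card_univ, Fintype.card_fin, ← pow_mul, ← Real.rpow_natCast]
    push_cast
    rfl
  have h4 : ∏ _j : Fin r, y ^ 2 ≤ ∏ j, (max (nd (ρ * w j)) y) ^ 2 := by
    refine Finset.prod_le_prod (fun _ _ => by positivity) (fun j _ => ?_)
    exact pow_le_pow_left₀ hy.le (le_max_right _ _) 2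
  have h5 : 0 < y ^ (s + θ) := by positivity
  calc 1 * (y ^ (s + θ) * ρ ^ (-θ)) ≤ 1 * (y ^ (s + θ) * 1) := by gcongr
    _ = y ^ (s + θ) := by ring
    _ ≤ _ := h1.trans (h3.trans_le h4)

lemma factor_le_nd {b y D : ℝ} (hb : 0 < b) (hy : 0 < y) :
    ‖1 - cexp (-(b : ℂ) * ((y : ℂ) + (2 * Real.pi * D : ℝ) * I))‖ ≤
      2 * (b + 2 * Real.pi) * max (nd (D * b)) y := by
  have hp := Real.pi_pos
  set m := max (nd (D * b)) y with hm
  have hm0 : 0 < m := hy.trans_le (le_max_right _ _)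
  by_cases h : (b + 2 * Real.pi) * m ≤ 1
  · set u : ℂ := -((b * y : ℝ) : ℂ) - ((2 * Real.pi * (D * b - round (D * b)) : ℝ) : ℂ) * I with hu
    have e1 : cexp (-(b : ℂ) * ((y : ℂ) + (2 * Real.pi * D : ℝ) * I)) = cexp u := by
      have e2 : -(b : ℂ) * ((y : ℂ) + (2 * Real.pi * D : ℝ) * I) =
          u - ((round (D * b) : ℤ) : ℂ) * (2 * Real.pi * I) := by
        rw [hu]; push_cast; ring
      rw [e2, Complex.exp_sub, Complex.exp_int_mul_two_pi_mul_I, div_one]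
    have hun : ‖u‖ ≤ (b + 2 * Real.pi) * m := by
      rw [hu]
      refine (norm_sub_le _ _).trans ?_
      rw [norm_neg, norm_mul, Complex.norm_I, mul_one, Complex.norm_real, Complex.norm_real,
        Real.norm_eq_abs, Real.norm_eq_abs, abs_of_pos (mul_pos hb hy), abs_mul,
        abs_of_pos (by positivity : 0 < 2 * Real.pi)]
      have h1 : 2 * Real.pi * |D * b - round (D * b)| ≤ 2 * Real.pi * m := by
        gcongr
        exact le_max_left _ _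
      have h2 : b * y ≤ b * m := by
        gcongr
        exact le_max_right _ _
      linarith
    rw [e1, ← norm_neg, neg_sub]
    calc ‖cexp u - 1‖ ≤ 2 * ‖u‖ := Complex.norm_exp_sub_one_le (hun.trans h)
      _ ≤ 2 * ((b + 2 * Real.pi) * m) := by gcongr
      _ = _ := by ring
  · rw [not_le] at h
    refine (factor_le_two hb hy).trans ?_
    linarith

lemma KK_lower_nd (ha : 0 < a) (hw : ∀ j, 0 < w j) {y : ℝ} (hy : 0 < y) (hy1 : y ≤ 1) {D : ℝ} :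
    Real.exp (-a) * (∏ j, (2 * (w j + 2 * Real.pi))⁻¹) * (∏ j, max (nd (D * w j)) y)⁻¹ ≤
      ‖KK a w ((y : ℂ) + (2 * Real.pi * D : ℝ) * I)‖ := by
  have hp := Real.pi_pos
  unfold KK
  rw [norm_mul, norm_prod, Complex.norm_exp]
  have hre : (-(a : ℂ) * ((y : ℂ) + (2 * Real.pi * D : ℝ) * I)).re = -(a * y) := by simp
  rw [hre, mul_assoc]
  have h1 : Real.exp (-a) ≤ Real.exp (-(a * y)) := Real.exp_le_exp.2 (by nlinarith)
  rw [← Finset.prod_inv_distrib, ← Finset.prod_mul_distrib]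
  have h0 : ∀ j, 0 ≤ (2 * (w j + 2 * Real.pi))⁻¹ * (max (nd (D * w j)) y)⁻¹ := by
    intro j
    have := hw j
    positivity
  refine mul_le_mul h1 ?_ (Finset.prod_nonneg fun j _ => h0 j) (Real.exp_pos _).le
  refine Finset.prod_le_prod (fun j _ => h0 j) (fun j _ => ?_)
  have hpos : 0 < ‖1 - cexp (-(w j : ℂ) * ((y : ℂ) + (2 * Real.pi * D : ℝ) * I))‖ :=
    norm_pos_iff.2 (one_sub_ne (hw j) (by simpa using hy))
  rw [norm_inv, ← mul_inv]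
  exact inv_anti₀ hpos (factor_le_nd (hw j) hy)

/-- a moment bound gives the Diophantine condition -/
theorem dio_of_moment (ha : 0 < a) (hw : ∀ j, 0 < w j) {Z : ℂ → ℂ}
    (hZ : ∀ s ∈ Om r, DifferentiableAt ℂ Z s)
    (hs : ∀ s : ℂ, (r : ℝ) < s.re → Z s = ∑' m : Fin r → ℕ, ((lam a w m : ℝ) : ℂ) ^ (-s))
    {n : ℕ} (hn : 1 ≤ n) {σ η : ℝ} (hσ : 1 / 2 < σ) (hη : 0 ≤ η)
    (hO : (fun T : ℝ => ∫ t in (1 : ℝ)..T, ‖Z ((σ : ℂ) + (t : ℂ) * I)‖ ^ n)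
      =O[atTop] fun T : ℝ => T ^ (1 + n * η)) :
    Dio w (2 * σ) (1 + 2 * η) := by
  rcases le_or_gt ((r : ℝ) + 1) σ with hbig | hσr
  · exact dio_trivial w (by linarith) (by linarith)
  have hp := Real.pi_pos
  obtain ⟨c, hc⟩ := exists_taylor a hw
  have hn0 : (0 : ℝ) < n := by exact_mod_cast hn
  have hO' : (fun T : ℝ => ∫ t in (1 : ℝ)..T, ‖FF a w c ((σ : ℂ) + (t : ℂ) * I)‖ ^ n)
      =O[atTop] fun T : ℝ => T ^ (1 + n * η) := by
    have h1 : (fun T : ℝ => ∫ t in (1 : ℝ)..T, ‖FF a w c ((σ : ℂ) + (t : ℂ) * I)‖ ^ n) =ᶠ[atTop]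
        fun T : ℝ => ∫ t in (1 : ℝ)..T, ‖Z ((σ : ℂ) + (t : ℂ) * I)‖ ^ n := by
      filter_upwards [eventually_ge_atTop (1 : ℝ)] with T hT
      refine intervalIntegral.integral_congr fun t ht => ?_
      rw [Set.uIcc_of_le hT] at ht
      show ‖FF a w c ((σ : ℂ) + (t : ℂ) * I)‖ ^ n = ‖Z ((σ : ℂ) + (t : ℂ) * I)‖ ^ n
      rw [eq_FF ha hw hc hZ hs _ (mem_Om_of_im (by simpa using ht.1))]
    exact h1.trans_isBigO hO
  obtain ⟨E, hE, hup⟩ := upper_of_moment2 ha hw hc hσ hσr.le hn (by positivity : 0 ≤ n * η) hO'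
  set e : ℝ := σ + 1 / 2 + n * η / n with he
  have he' : e = σ + 1 / 2 + η := by rw [he]; field_simp
  have he0 : 0 < e := by rw [he']; linarith
  set cL : ℝ := Real.exp (-a) * ∏ j, (2 * (w j + 2 * Real.pi))⁻¹ with hcL
  have hcL0 : 0 < cL := by
    have : 0 < ∏ j, (2 * (w j + 2 * Real.pi))⁻¹ :=
      Finset.prod_pos (fun j _ => by have := hw j; positivity)
    positivity
  set K1 : ℝ := E * (1 + 8 ^ e) with hK1
  have hK10 : 0 < K1 := by positivity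
  refine ⟨(cL / K1) ^ 2, by positivity, fun ρ y hρ hy hy1 => ?_⟩
  have hρ0 : 0 < ρ := by linarith
  obtain ⟨h1, h2, h3⟩ := theta_lower2 hy hy1 hρ
  set z : ℂ := (y : ℂ) + (2 * Real.pi * ρ : ℝ) * I with hz
  have hre : 0 < z.re := by simpa [hz] using hy
  have h4 := hup z (hρ.trans h1) hre h2
  have h5 := KK_lower_nd (a := a) (w := w) ha hw hy hy1 (D := ρ)
  rw [← hz] at h5
  set Q : ℝ := ∏ j, max (nd (ρ * w j)) y with hQ
  have hQ0 : 0 < Q := Finset.prod_pos fun j _ => hy.trans_le (le_max_right _ _)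
  have h6 : ‖z‖ ^ (-σ) ≤ ρ ^ (-σ) := Real.rpow_le_rpow_of_nonpos hρ0 h1 (by linarith)
  have h7 : (Real.pi / 2 - arg z) ^ (-e) ≤ (y / (8 * ρ)) ^ (-e) :=
    Real.rpow_le_rpow_of_nonpos (by positivity) h3 (by linarith)
  have h8 : (y / (8 * ρ)) ^ (-e) = 8 ^ e * (ρ / y) ^ e := by
    rw [Real.rpow_neg (by positivity), ← Real.inv_rpow (by positivity), inv_div,
      mul_div_assoc, Real.mul_rpow (by norm_num) (by positivity)]
  have h9 : 1 ≤ (ρ / y) ^ e := by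
    apply Real.one_le_rpow _ he0.le
    rw [le_div_iff₀ hy]
    linarith
  have h10 : cL * Q⁻¹ ≤ K1 * (ρ ^ (-σ) * (ρ / y) ^ e) := by
    calc cL * Q⁻¹ ≤ ‖KK a w z‖ := h5
      _ ≤ ‖z‖ ^ (-σ) * (E * (1 + (Real.pi / 2 - arg z) ^ (-e))) := h4
      _ ≤ ρ ^ (-σ) * (E * (1 * (ρ / y) ^ e + 8 ^ e * (ρ / y) ^ e)) := by
          rw [← h8]
          have : 0 ≤ (Real.pi / 2 - arg z) ^ (-e) := by
            apply Real.rpow_nonneg
            have : 0 < y / (8 * ρ) := by positivity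
            linarith
          gcongr
          linarith
      _ = _ := by rw [hK1]; ring
  have h11 : ρ ^ (-σ) * (ρ / y) ^ e = (y ^ (e) * ρ ^ (σ - e))⁻¹ := by
    rw [Real.div_rpow hρ0.le hy.le, Real.rpow_sub hρ0, Real.rpow_neg hρ0.le]
    field_simp
  rw [h11] at h10
  have h12 : cL / K1 * (y ^ e * ρ ^ (σ - e)) ≤ Q := by
    have hM : 0 < y ^ e * ρ ^ (σ - e) := by positivity
    rw [← div_eq_mul_inv, ← div_eq_mul_inv, div_le_div_iff₀ hQ0 hM] at h10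
    rw [div_mul_eq_mul_div, div_le_iff₀ hK10]
    linarith
  have h13 : ∏ j, (max (nd (ρ * w j)) y) ^ 2 = Q ^ 2 := by rw [Finset.prod_pow]
  rw [h13]
  have h14 : y ^ (2 * σ + (1 + 2 * η)) * ρ ^ (-(1 + 2 * η)) = (y ^ e * ρ ^ (σ - e)) ^ 2 := by
    rw [mul_pow, ← Real.rpow_natCast (y ^ e), ← Real.rpow_natCast (ρ ^ (σ - e)),
      ← Real.rpow_mul hy.le, ← Real.rpow_mul hρ0.le, he']
    congr 2 <;> push_cast <;> ring
  rw [h14, ← mul_pow]
  exact pow_le_pow_left₀ (by positivity) h12 2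

end Pool.Agent.H312.Barnes
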